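import Mathlib

set_option autoImplicit false

open Filter Topology Set

namespace Pool.Agent.Work.MP_db815f_an

/-- `AdmissibleProfile ξ₀ g` : `(ξ₀, g)` is an admissible profile for the thin film equation
`u_t = -(u u_xxx)_x - 1` (symmetric, zero contact angle, zero flux): `ξ₀ > 0`,
`g ∈ C⁴([0, ξ₀))`, `g > 0` and `-(g g''')' - ξ g' / 2 + g - 1 = 0` on `[0, ξ₀)`,
`g'(0) = g'''(0) = 0`, and `g → 0`, `g' → 0`, `g g''' → 0` as `ξ → ξ₀⁻`.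
(All derivatives are taken within `[0, ξ₀)`, so they are one-sided at `0`.) -/
structure AdmissibleProfile (ξ₀ : ℝ) (g : ℝ → ℝ) : Prop where
  pos : 0 < ξ₀
  smooth : ContDiffOn ℝ 4 g (Ico 0 ξ₀)
  g_pos : ∀ ξ ∈ Ico 0 ξ₀, 0 < g ξ
  ode : ∀ ξ ∈ Ico 0 ξ₀,
    -(derivWithin (fun x => g x * iteratedDerivWithin 3 g (Ico 0 ξ₀) x) (Ico 0 ξ₀) ξ) -
      1 / 2 * ξ * derivWithin g (Ico 0 ξ₀) ξ + g ξ - 1 = 0
  first_deriv_zero : derivWithin g (Ico 0 ξ₀) 0 = 0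
  third_deriv_zero : iteratedDerivWithin 3 g (Ico 0 ξ₀) 0 = 0
  height : Tendsto g (𝓝[<] ξ₀) (𝓝 0)
  angle : Tendsto (fun ξ => derivWithin g (Ico 0 ξ₀) ξ) (𝓝[<] ξ₀) (𝓝 0)
  flux : Tendsto (fun ξ => g ξ * iteratedDerivWithin 3 g (Ico 0 ξ₀) ξ) (𝓝[<] ξ₀) (𝓝 0)

end Pool.Agent.Work.MP_db815f_an
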