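import Mathlib

set_option autoImplicit false

namespace Pool.Agent.Work.MP_db815f_an

/-- the kernel `K(t,s)` (Green's function of `D''' = f`, `D'(0)=D(1)=D'(1)=0`) -/
noncomputable def K (t s : ℝ) : ℝ := (s * (1 - t) ^ 2 - (max (s - t) 0) ^ 2) / 2

theorem K_of_le {t s : ℝ} (h : s ≤ t) : K t s = s * (1 - t) ^ 2 / 2 := by
  unfold K
  rw [max_eq_right (by linarith)]
  ring

theorem K_of_ge {t s : ℝ} (h : t ≤ s) : K t s = (1 - s) * (s - t ^ 2) / 2 := by
  unfold K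
  rw [max_eq_left (by linarith)]
  ring

theorem K_eq (t s : ℝ) : K t s = s * (1 - s) / 2 - t ^ 2 * (1 - s) / 2 + (max (t - s) 0) ^ 2 / 2 := by
  rcases le_total s t with h | h
  · rw [K_of_le h, max_eq_left (by linarith)]
    ring
  · rw [K_of_ge h, max_eq_right (by linarith)]
    ring

theorem K_eq' (t s : ℝ) : K s t = t * (1 - s) ^ 2 / 2 - (max (t - s) 0) ^ 2 / 2 := by
  unfold K
  ring

theorem K_cont : Continuous fun p : ℝ × ℝ => K p.1 p.2 := by
  unfold K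
  fun_prop

theorem K_zero (s : ℝ) (hs : 0 ≤ s) : K 0 s = s * (1 - s) / 2 := by
  rw [K_of_ge hs]
  ring

theorem K_one (s : ℝ) (hs : s ≤ 1) : K 1 s = 0 := by
  rw [K_of_le hs]
  ring

theorem K_one' (s : ℝ) (hs : s ≤ 1) : K s 1 = 0 := by
  rw [K_of_ge hs]
  ring

theorem K_zero' (s : ℝ) (hs : 0 ≤ s) : K s 0 = 0 := by
  rw [K_of_le hs]
  ring

theorem K_lower {t s : ℝ} (ht : 0 ≤ t) (ht1 : t ≤ 1) (hs : 0 ≤ s) (hs1 : s ≤ 1) :
    s * (1 - s) * (1 - t) ^ 2 / 2 ≤ K t s := by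
  rcases le_total s t with h | h
  · rw [K_of_le h]
    nlinarith [mul_nonneg (mul_nonneg hs hs) (sq_nonneg (1 - t))]
  · rw [K_of_ge h]
    have : s * (1 - t) ^ 2 ≤ s - t ^ 2 := by
      nlinarith [mul_nonneg ht (sub_nonneg.2 h), mul_nonneg (mul_nonneg ht hs) (sub_nonneg.2 ht1)]
    nlinarith [mul_le_mul_of_nonneg_left this (sub_nonneg.2 hs1)]

theorem K_nonneg {t s : ℝ} (ht : 0 ≤ t) (ht1 : t ≤ 1) (hs : 0 ≤ s) (hs1 : s ≤ 1) :
    0 ≤ K t s := by
  refine le_trans ?_ (K_lower ht ht1 hs hs1)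
  have := sub_nonneg.2 hs1
  positivity

theorem K_upper {t s : ℝ} (ht : 0 ≤ t) (ht1 : t ≤ 1) (hs : 0 ≤ s) (hs1 : s ≤ 1) :
    K t s ≤ s * (1 - s) / 2 := by
  rcases le_total s t with h | h
  · rw [K_of_le h]
    have : (1 - t) ^ 2 ≤ 1 - s := by nlinarith
    nlinarith
  · rw [K_of_ge h]
    nlinarith [mul_nonneg (sq_nonneg t) (sub_nonneg.2 hs1)]

theorem K_upper' {t s : ℝ} (ht : 0 ≤ t) (ht1 : t ≤ 1) (hs : 0 ≤ s) (hs1 : s ≤ 1) :
    K s t ≤ (1 - s) / 2 := by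
  rcases le_total s t with h | h
  · rw [K_of_ge h]
    nlinarith [mul_nonneg (sub_nonneg.2 ht1) (sub_nonneg.2 ht1), sq_nonneg s,
      mul_nonneg (sub_nonneg.2 ht1) (sq_nonneg s)]
  · rw [K_of_le h]
    have h1 : (1 - s) ^ 2 ≤ (1 - s) := by nlinarith
    have h2 : t * (1 - s) ^ 2 ≤ 1 * (1 - s) ^ 2 :=
      mul_le_mul_of_nonneg_right ht1 (sq_nonneg _)
    linarith

/-- the ratio bound -/
theorem K_ratio {t s : ℝ} (ht : 0 ≤ t) (ht1 : t ≤ 1) (hs : 0 ≤ s) (hs1 : s ≤ 1) :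
    (1 - t) * (s * K s t) ≤ t * K t s := by
  rcases le_total s t with h | h
  · rw [K_of_ge h, K_of_le h]
    have : (1 - t) * (s * ((1 - t) * (t - s ^ 2) / 2)) =
      t * (s * (1 - t) ^ 2 / 2) - s ^ 3 * (1 - t) ^ 2 / 2 := by ring
    rw [this]
    have : 0 ≤ s ^ 3 * (1 - t) ^ 2 / 2 := by positivity
    linarith
  · rw [K_of_le h, K_of_ge h]
    have h1 : s * (1 - s) * (1 - t) ≤ s - t ^ 2 := by
      nlinarith [mul_nonneg ht (sub_nonneg.2 h),
        mul_nonneg (mul_nonneg hs hs) (sub_nonneg.2 ht1), mul_nonneg hs (sub_nonneg.2 ht1)]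
    have h2 : 0 ≤ t * (1 - s) := mul_nonneg ht (sub_nonneg.2 hs1)
    nlinarith [mul_le_mul_of_nonneg_left h1 h2]

theorem K_lip {t t' s : ℝ} (ht : 0 ≤ t) (ht1 : t' ≤ 1) (htt : t ≤ t') (hs : 0 ≤ s)
    (hs1 : s ≤ 1) : |K t s - K t' s| ≤ s * (1 - s) * (t' - t) := by
  rw [abs_le]
  have e0 := sub_nonneg.2 htt
  have e1 := sub_nonneg.2 ht1
  have e2 := sub_nonneg.2 hs1
  rcases le_total s t with h | h
  · rw [K_of_le h, K_of_le (h.trans htt)]
    constructor
    · nlinarith [mul_nonneg hs (mul_nonneg e0 (by linarith : (0:ℝ) ≤ 2 - t - t')),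
        mul_nonneg (mul_nonneg hs e2) e0]
    · have : 2 - t - t' ≤ 2 * (1 - s) := by linarith
      nlinarith [mul_le_mul_of_nonneg_left this (mul_nonneg hs e0)]
  · rcases le_total s t' with h' | h'
    · rw [K_of_ge h, K_of_le h']
      have f0 := sub_nonneg.2 h
      have f1 := sub_nonneg.2 h'
      constructor
      · nlinarith [mul_nonneg (mul_nonneg hs e2) e0, mul_nonneg f0 f1, mul_nonneg e2 f0,
          mul_nonneg hs f1, mul_nonneg hs f0, mul_nonneg (mul_nonneg hs f1) e1,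
          mul_nonneg (mul_nonneg ht f0) e2, mul_nonneg (mul_nonneg hs f1) e2,
          mul_nonneg (mul_nonneg hs f0) e2]
      · nlinarith [mul_nonneg (mul_nonneg hs e2) e0, mul_nonneg f0 f1, mul_nonneg e2 f0,
          mul_nonneg hs f1, mul_nonneg hs f0, mul_nonneg (mul_nonneg hs f1) e1,
          mul_nonneg (mul_nonneg ht f0) e2, mul_nonneg (mul_nonneg hs f1) e2,
          mul_nonneg (mul_nonneg hs f0) e2, mul_nonneg (mul_nonneg hs f1) f1,
          mul_nonneg (mul_nonneg f0 f0) e2]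
    · rw [K_of_ge h, K_of_ge h']
      have f0 := sub_nonneg.2 h
      have f1 := sub_nonneg.2 h'
      constructor
      · nlinarith [mul_nonneg (mul_nonneg e2 e0) (by linarith : (0:ℝ) ≤ t + t'),
          mul_nonneg (mul_nonneg hs e2) e0]
      · have : t + t' ≤ 2 * s := by linarith
        nlinarith [mul_le_mul_of_nonneg_left this (mul_nonneg e2 e0)]

theorem K_lip' {t t' s : ℝ} (ht : 0 ≤ t) (ht1 : t' ≤ 1) (htt : t ≤ t') (hs : 0 ≤ s)
    (hs1 : s ≤ 1) : |K s t - K s t'| ≤ (1 - s) * (t' - t) := by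
  rw [abs_le]
  have e0 := sub_nonneg.2 htt
  have e1 := sub_nonneg.2 ht1
  have e2 := sub_nonneg.2 hs1
  rcases le_total s t with h | h
  · rw [K_of_ge h, K_of_ge (h.trans htt)]
    have f0 := sub_nonneg.2 h
    have e3 : (1 - t) * (t - s ^ 2) / 2 - (1 - t') * (t' - s ^ 2) / 2 =
      (t' - t) * (t + t' - 1 - s ^ 2) / 2 := by ring
    rw [e3]
    constructor
    · have : -(2 * (1 - s)) ≤ t + t' - 1 - s ^ 2 := by nlinarith
      nlinarith [mul_le_mul_of_nonneg_left this e0]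
    · have : t + t' - 1 - s ^ 2 ≤ 2 * (1 - s) := by nlinarith
      nlinarith [mul_le_mul_of_nonneg_left this e0]
  · rcases le_total s t' with h' | h'
    · rw [K_of_le h, K_of_ge h']
      have f0 := sub_nonneg.2 h
      have f1 := sub_nonneg.2 h'
      constructor
      · nlinarith [mul_nonneg e2 e0, mul_nonneg f0 f1, mul_nonneg e2 f0,
          mul_nonneg hs f1, mul_nonneg hs f0, mul_nonneg (mul_nonneg hs f1) e1,
          mul_nonneg (mul_nonneg ht f0) e2, mul_nonneg (mul_nonneg hs f1) e2,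
          mul_nonneg (mul_nonneg hs f0) e2, mul_nonneg e2 f1, mul_nonneg e2 (mul_nonneg f0 hs),
          mul_nonneg e2 (mul_nonneg e2 f0)]
      · nlinarith [mul_nonneg e2 e0, mul_nonneg f0 f1, mul_nonneg e2 f0,
          mul_nonneg hs f1, mul_nonneg hs f0, mul_nonneg (mul_nonneg hs f1) e1,
          mul_nonneg (mul_nonneg ht f0) e2, mul_nonneg (mul_nonneg hs f1) e2,
          mul_nonneg (mul_nonneg hs f0) e2, mul_nonneg (mul_nonneg hs f1) f1,
          mul_nonneg (mul_nonneg f0 f0) e2, mul_nonneg e2 f1, mul_nonneg e2 (mul_nonneg e2 f0)]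
    · rw [K_of_le h, K_of_le h']
      constructor
      · have : (1 - s) ^ 2 ≤ (1 - s) := by nlinarith
        nlinarith [mul_le_mul_of_nonneg_left this e0, mul_nonneg e2 e0]
      · nlinarith [mul_nonneg e0 (sq_nonneg (1 - s)), mul_nonneg e2 e0]

end Pool.Agent.Work.MP_db815f_an
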