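import Mathlib
import Pool.Agent.Work.MP_089002_mp.Topo

set_option autoImplicit false

open Filter Topology Set Metric MeasureTheory

namespace Pool.Agent.Work.MP_db815f_an

/-- retraction of `ℝ^ι` onto the standard simplex -/
noncomputable def retr {ι : Type} [Fintype ι] (x : ι → ℝ) (i : ι) : ℝ :=
  max (x i) 0 / max 1 (∑ j, max (x j) 0) +
    (1 - (∑ j, max (x j) 0) / max 1 (∑ j, max (x j) 0)) / Fintype.card ι

theorem retr_cont {ι : Type} [Fintype ι] : Continuous (retr (ι := ι)) := by
  unfold retr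
  refine continuous_pi fun i => ?_
  have h1 : Continuous fun x : ι → ℝ => max 1 (∑ j, max (x j) 0) := by fun_prop
  have h2 : ∀ x : ι → ℝ, max 1 (∑ j, max (x j) 0) ≠ 0 := fun x =>
    (lt_of_lt_of_le one_pos (le_max_left _ _)).ne'
  refine Continuous.add (Continuous.div (by fun_prop) h1 h2) ?_
  refine Continuous.div_const (continuous_const.sub (Continuous.div (by fun_prop) h1 h2)) _

theorem retr_mem {ι : Type} [Fintype ι] [Nonempty ι] (x : ι → ℝ) :
    retr x ∈ stdSimplex ℝ ι := by
  set s := ∑ j, max (x j) 0 with hs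
  have hs0 : 0 ≤ s := Finset.sum_nonneg fun j _ => le_max_right _ _
  have hm : 0 < max 1 s := lt_of_lt_of_le one_pos (le_max_left _ _)
  have hle : s / max 1 s ≤ 1 := (div_le_one hm).2 (le_max_right _ _)
  have hc : (0 : ℝ) < Fintype.card ι := by exact_mod_cast Fintype.card_pos
  constructor
  · intro i
    unfold retr
    rw [← hs]
    have h1 : 0 ≤ max (x i) 0 / max 1 s := div_nonneg (le_max_right _ _) hm.le
    have h2 : 0 ≤ (1 - s / max 1 s) / Fintype.card ι := div_nonneg (by linarith) hc.le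
    linarith
  · unfold retr
    rw [← hs, Finset.sum_add_distrib, ← Finset.sum_div, ← hs, Finset.sum_const, Finset.card_univ,
      nsmul_eq_mul, mul_div_cancel₀ _ hc.ne']
    ring

theorem retr_eq {ι : Type} [Fintype ι] (x : ι → ℝ) (hx : x ∈ stdSimplex ℝ ι) :
    retr x = x := by
  have h1 : ∀ i, max (x i) 0 = x i := fun i => max_eq_left (hx.1 i)
  have h2 : ∑ j, max (x j) 0 = 1 := by
    rw [← hx.2]
    exact Finset.sum_congr rfl fun i _ => h1 i
  funext i
  unfold retr
  rw [h2, h1 i]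
  simp

/-- Brouwer's theorem for the standard simplex -/
theorem brouwer_simplex {ι : Type} [Fintype ι] [Nonempty ι] (T : (ι → ℝ) → (ι → ℝ))
    (hT : ContinuousOn T (stdSimplex ℝ ι))
    (hmap : ∀ x ∈ stdSimplex ℝ ι, T x ∈ stdSimplex ℝ ι) :
    ∃ x ∈ stdSimplex ℝ ι, T x = x := by
  set h : EuclideanSpace ℝ ι → EuclideanSpace ℝ ι :=
    fun x => WithLp.toLp 2 (T (retr (WithLp.ofLp x))) with hh
  have hTr : Continuous fun y : ι → ℝ => T (retr y) :=
    hT.comp_continuous retr_cont retr_mem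
  have hc : Continuous h := by
    have := (PiLp.continuous_toLp 2 (fun _ : ι => ℝ)).comp
      (hTr.comp (PiLp.continuous_ofLp 2 (fun _ : ι => ℝ)))
    exact this
  have hnorm : ∀ x : EuclideanSpace ℝ ι, ‖h x‖ ≤ 1 := by
    intro x
    have hy := hmap _ (retr_mem (WithLp.ofLp x))
    have h1 : ‖h x‖ ^ 2 ≤ 1 := by
      rw [EuclideanSpace.norm_sq_eq]
      have : ∀ i ∈ Finset.univ, ‖(h x) i‖ ^ 2 ≤ T (retr (WithLp.ofLp x)) i := by
        intro i _
        have h0 := hy.1 i
        have h1 : T (retr (WithLp.ofLp x)) i ≤ 1 := by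
          rw [← hy.2]
          exact Finset.single_le_sum (fun j _ => hy.1 j) (Finset.mem_univ i)
        have e : (h x) i = T (retr (WithLp.ofLp x)) i := rfl
        rw [e, Real.norm_of_nonneg h0]
        nlinarith
      refine (Finset.sum_le_sum this).trans ?_
      rw [hy.2]
    nlinarith [norm_nonneg (h x)]
  obtain ⟨x, -, hx⟩ := Pool.Agent.Work.MP_089002_mp.brouwer_cont (h := h) hc.continuousOn
    (fun x _ => hnorm x)
  have e1 : T (retr (WithLp.ofLp x)) = WithLp.ofLp x := congrArg WithLp.ofLp hx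
  have hmem : WithLp.ofLp x ∈ stdSimplex ℝ ι := by
    rw [← e1]
    exact hmap _ (retr_mem _)
  refine ⟨WithLp.ofLp x, hmem, ?_⟩
  rw [retr_eq _ hmem] at e1
  exact e1

end Pool.Agent.Work.MP_db815f_an
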