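import Mathlib
import Pool.Agent.Work.MP_db815f_an.Simplex
import Pool.Agent.Work.MP_db815f_an.Kernel

set_option autoImplicit false

open Filter Topology Set Metric MeasureTheory

namespace Pool.Agent.Work.MP_db815f_an

section avg

variable {ι : Type} [Fintype ι] {x : ι → ℝ}

theorem avg_le (hx : x ∈ stdSimplex ℝ ι) {a : ι → ℝ} {c : ℝ} (h : ∀ j, a j ≤ c) :
    ∑ j, x j * a j ≤ c := by
  calc ∑ j, x j * a j ≤ ∑ j, x j * c :=
        Finset.sum_le_sum fun j _ => mul_le_mul_of_nonneg_left (h j) (hx.1 j)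
    _ = c := by rw [← Finset.sum_mul, hx.2, one_mul]

theorem le_avg (hx : x ∈ stdSimplex ℝ ι) {a : ι → ℝ} {c : ℝ} (h : ∀ j, c ≤ a j) :
    c ≤ ∑ j, x j * a j := by
  calc c = ∑ j, x j * c := by rw [← Finset.sum_mul, hx.2, one_mul]
    _ ≤ ∑ j, x j * a j :=
        Finset.sum_le_sum fun j _ => mul_le_mul_of_nonneg_left (h j) (hx.1 j)

theorem avg_pos (hx : x ∈ stdSimplex ℝ ι) {a : ι → ℝ} (h : ∀ j, 0 < a j) :
    0 < ∑ j, x j * a j := by
  have hne : ∃ j, x j ≠ 0 := by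
    by_contra hcon
    push Not at hcon
    have := hx.2
    simp [hcon] at this
  obtain ⟨j, hj⟩ := hne
  have hj' : 0 < x j := lt_of_le_of_ne (hx.1 j) (Ne.symm hj)
  calc 0 < x j * a j := mul_pos hj' (h j)
    _ ≤ ∑ j, x j * a j :=
        Finset.single_le_sum (f := fun j => x j * a j)
          (fun i _ => mul_nonneg (hx.1 i) (h i).le) (Finset.mem_univ j)

end avg

theorem discrete {ι : Type} [Fintype ι] [Nonempty ι] (s : ι → ℝ)
    (hs0 : ∀ j, 0 < s j) (hs1 : ∀ j, s j < 1) :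
    ∃ (D N : ℝ → ℝ) (S : ℝ), 0 < S ∧ S ≤ 1 ∧
      (∀ t ∈ Icc (0 : ℝ) 1, S * D t =
        (Fintype.card ι : ℝ)⁻¹ * ∑ j, K t (s j) * (N (s j) / D (s j))) ∧
      (∀ t ∈ Icc (0 : ℝ) 1, S * N t =
        (Fintype.card ι : ℝ)⁻¹ * ∑ j, s j * K (s j) t * (N (s j) / D (s j))) ∧
      (∀ t ∈ Icc (0 : ℝ) 1, (1 - t) ^ 2 / 2 ≤ D t ∧ D t ≤ 1) ∧
      (∀ t ∈ Icc (0 : ℝ) 1, 0 ≤ N t ∧ N t ≤ 1) ∧
      (∀ t ∈ Icc (0 : ℝ) 1, (1 - t) * N t ≤ t * D t) ∧
      (∀ t ∈ Icc (0 : ℝ) 1, ∀ t' ∈ Icc (0 : ℝ) 1, |D t - D t'| ≤ |t - t'|) ∧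
      (∀ t ∈ Icc (0 : ℝ) 1, ∀ t' ∈ Icc (0 : ℝ) 1, |N t - N t'| ≤ |t - t'|) ∧
      D 0 = 1 / 2 ∧ D 1 = 0 ∧ N 0 = 0 ∧ N 1 = 0 ∧
      (Fintype.card ι : ℝ)⁻¹ * ∑ j, (s j) ^ 2 * (1 - s j) ^ 3 ≤ S := by
  classical
  set w : ι → ℝ := fun j => s j * (1 - s j) with hw
  have hwpos : ∀ j, 0 < w j := fun j => mul_pos (hs0 j) (sub_pos.2 (hs1 j))
  set a : ℝ → ι → ℝ := fun t j => K t (s j) / w j with ha
  set b : ℝ → ι → ℝ := fun t j => s j * K (s j) t / w j with hb
  have hcard : (0 : ℝ) < Fintype.card ι := by exact_mod_cast Fintype.card_pos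
  -- kernel facts
  have a_low : ∀ t ∈ Icc (0 : ℝ) 1, ∀ j, (1 - t) ^ 2 / 2 ≤ a t j := by
    intro t ht j
    rw [ha]
    simp only
    rw [le_div_iff₀ (hwpos j)]
    have := K_lower ht.1 ht.2 (hs0 j).le (hs1 j).le
    simp only [hw]
    linarith
  have a_up : ∀ t ∈ Icc (0 : ℝ) 1, ∀ j, a t j ≤ 1 := by
    intro t ht j
    rw [ha]
    simp only
    rw [div_le_iff₀ (hwpos j)]
    have := K_upper ht.1 ht.2 (hs0 j).le (hs1 j).le
    have := hwpos j
    simp only [hw] at this ⊢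
    linarith
  have b_low : ∀ t ∈ Icc (0 : ℝ) 1, ∀ j, t * (1 - t) / 2 * (1 - s j) ≤ b t j := by
    intro t ht j
    rw [hb]
    simp only
    rw [le_div_iff₀ (hwpos j)]
    have := K_lower (hs0 j).le (hs1 j).le ht.1 ht.2
    simp only [hw]
    have h2 := mul_le_mul_of_nonneg_left this (hs0 j).le
    nlinarith
  have b_up : ∀ t ∈ Icc (0 : ℝ) 1, ∀ j, b t j ≤ 1 := by
    intro t ht j
    rw [hb]
    simp only
    rw [div_le_iff₀ (hwpos j)]
    have := K_upper' ht.1 ht.2 (hs0 j).le (hs1 j).le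
    have h2 := mul_le_mul_of_nonneg_left this (hs0 j).le
    have := hwpos j
    simp only [hw] at this ⊢
    linarith
  have b_nonneg : ∀ t ∈ Icc (0 : ℝ) 1, ∀ j, 0 ≤ b t j := by
    intro t ht j
    have h1 := b_low t ht j
    have h2 : 0 ≤ t * (1 - t) / 2 * (1 - s j) := by
      have := sub_nonneg.2 ht.2
      have := sub_nonneg.2 (hs1 j).le
      have := ht.1
      positivity
    linarith
  have ab : ∀ t ∈ Icc (0 : ℝ) 1, ∀ j, (1 - t) * b t j ≤ t * a t j := by
    intro t ht j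
    rw [ha, hb]
    simp only
    rw [← mul_div_assoc, ← mul_div_assoc]
    exact div_le_div_of_nonneg_right (K_ratio ht.1 ht.2 (hs0 j).le (hs1 j).le) (hwpos j).le
  have a_lip : ∀ t ∈ Icc (0 : ℝ) 1, ∀ t' ∈ Icc (0 : ℝ) 1, ∀ j,
      |a t j - a t' j| ≤ |t - t'| := by
    have key : ∀ t ∈ Icc (0 : ℝ) 1, ∀ t' ∈ Icc (0 : ℝ) 1, t ≤ t' → ∀ j,
        |a t j - a t' j| ≤ |t - t'| := by
      intro t ht t' ht' htt j
      have h1 := K_lip ht.1 ht'.2 htt (hs0 j).le (hs1 j).le
      rw [ha]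
      simp only
      rw [← sub_div, abs_div, abs_of_pos (hwpos j), div_le_iff₀ (hwpos j), abs_sub_comm t t',
        abs_of_nonneg (sub_nonneg.2 htt)]
      simp only [hw]
      linarith
    intro t ht t' ht' j
    rcases le_total t t' with h | h
    · exact key t ht t' ht' h j
    · rw [abs_sub_comm, abs_sub_comm t t']
      exact key t' ht' t ht h j
  have b_lip : ∀ t ∈ Icc (0 : ℝ) 1, ∀ t' ∈ Icc (0 : ℝ) 1, ∀ j,
      |b t j - b t' j| ≤ |t - t'| := by
    have key : ∀ t ∈ Icc (0 : ℝ) 1, ∀ t' ∈ Icc (0 : ℝ) 1, t ≤ t' → ∀ j,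
        |b t j - b t' j| ≤ |t - t'| := by
      intro t ht t' ht' htt j
      have h1 := K_lip' ht.1 ht'.2 htt (hs0 j).le (hs1 j).le
      rw [hb]
      simp only
      rw [← sub_div, abs_div, abs_of_pos (hwpos j), div_le_iff₀ (hwpos j), abs_sub_comm t t',
        abs_of_nonneg (sub_nonneg.2 htt), ← mul_sub, abs_mul, abs_of_pos (hs0 j)]
      have h2 := mul_le_mul_of_nonneg_left h1 (hs0 j).le
      simp only [hw]
      linarith
    intro t ht t' ht' j
    rcases le_total t t' with h | h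
    · exact key t ht t' ht' h j
    · rw [abs_sub_comm, abs_sub_comm t t']
      exact key t' ht' t ht h j
  have a_pos : ∀ i j, 0 < a (s i) j := by
    intro i j
    refine lt_of_lt_of_le ?_ (a_low (s i) ⟨(hs0 i).le, (hs1 i).le⟩ j)
    have := sub_pos.2 (hs1 i)
    positivity
  have b_pos : ∀ i j, 0 < b (s i) j := by
    intro i j
    refine lt_of_lt_of_le ?_ (b_low (s i) ⟨(hs0 i).le, (hs1 i).le⟩ j)
    have h1 := sub_pos.2 (hs1 i)
    have h2 := sub_pos.2 (hs1 j)
    have h3 := hs0 i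
    positivity
  -- the map
  set φ : (ι → ℝ) → ι → ℝ := fun x i =>
    w i * ((∑ j, x j * b (s i) j) / (∑ j, x j * a (s i) j)) with hφ
  have φ_pos : ∀ x ∈ stdSimplex ℝ ι, ∀ i, 0 < φ x i := by
    intro x hx i
    exact mul_pos (hwpos i) (div_pos (avg_pos hx (b_pos i)) (avg_pos hx (a_pos i)))
  have φ_cont : ∀ i, ContinuousOn (fun x => φ x i) (stdSimplex ℝ ι) := by
    intro i
    refine ContinuousOn.mul continuousOn_const (ContinuousOn.div ?_ ?_ ?_)
    · apply Continuous.continuousOn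
      fun_prop
    · apply Continuous.continuousOn
      fun_prop
    · intro x hx
      exact (avg_pos hx (a_pos i)).ne'
  have Φpos : ∀ x ∈ stdSimplex ℝ ι, 0 < ∑ i, φ x i := fun x hx =>
    Finset.sum_pos (fun i _ => φ_pos x hx i) Finset.univ_nonempty
  obtain ⟨x, hx, hfix⟩ := brouwer_simplex (fun x i => φ x i / ∑ j, φ x j)
    (by
      refine continuousOn_pi.2 fun i => ContinuousOn.div (φ_cont i) ?_ ?_
      · exact continuousOn_finset_sum _ fun j _ => φ_cont j
      · intro x hx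
        exact (Φpos x hx).ne')
    (by
      intro x hx
      refine ⟨fun i => div_nonneg (φ_pos x hx i).le (Φpos x hx).le, ?_⟩
      rw [← Finset.sum_div, div_self (Φpos x hx).ne'])
  set D : ℝ → ℝ := fun t => ∑ j, x j * a t j with hD
  set N : ℝ → ℝ := fun t => ∑ j, x j * b t j with hN
  set S : ℝ := (Fintype.card ι : ℝ)⁻¹ * ∑ j, φ x j with hS
  have hSpos : 0 < S := mul_pos (inv_pos.2 hcard) (Φpos x hx)
  have hDlow : ∀ t ∈ Icc (0 : ℝ) 1, (1 - t) ^ 2 / 2 ≤ D t := fun t ht => le_avg hx (a_low t ht)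
  have hDup : ∀ t ∈ Icc (0 : ℝ) 1, D t ≤ 1 := fun t ht => avg_le hx (a_up t ht)
  have hN0 : ∀ t ∈ Icc (0 : ℝ) 1, 0 ≤ N t := fun t ht => le_avg hx (b_nonneg t ht)
  have hNup : ∀ t ∈ Icc (0 : ℝ) 1, N t ≤ 1 := fun t ht => avg_le hx (b_up t ht)
  have hmem : ∀ j, s j ∈ Icc (0 : ℝ) 1 := fun j => ⟨(hs0 j).le, (hs1 j).le⟩
  have hND : ∀ t ∈ Icc (0 : ℝ) 1, (1 - t) * N t ≤ t * D t := by
    intro t ht
    simp only [hD, hN]
    rw [Finset.mul_sum, Finset.mul_sum]
    refine Finset.sum_le_sum fun j _ => ?_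
    have := mul_le_mul_of_nonneg_left (ab t ht j) (hx.1 j)
    linarith
  have hxj : ∀ j, S * x j = (Fintype.card ι : ℝ)⁻¹ * (w j * (N (s j) / D (s j))) := by
    intro j
    have h1 : φ x j / (∑ j, φ x j) = x j := congrFun hfix j
    have h2 : φ x j = w j * (N (s j) / D (s j)) := rfl
    rw [← h2, hS, ← h1]
    have := (Φpos x hx).ne'
    field_simp
  have φle : ∀ j, φ x j ≤ s j ^ 2 := by
    intro j
    have h2 : φ x j = w j * (N (s j) / D (s j)) := rfl
    have hDj : 0 < D (s j) := avg_pos hx (a_pos j)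
    rw [h2, ← mul_div_assoc, div_le_iff₀ hDj]
    have := mul_le_mul_of_nonneg_left (hND (s j) (hmem j)) (hs0 j).le
    simp only [hw]
    nlinarith
  refine ⟨D, N, S, hSpos, ?_, ?_, ?_, fun t ht => ⟨hDlow t ht, hDup t ht⟩,
    fun t ht => ⟨hN0 t ht, hNup t ht⟩, hND, ?_, ?_, ?_, ?_, ?_, ?_, ?_⟩
  · rw [hS, inv_mul_le_iff₀ hcard, mul_one]
    calc ∑ j, φ x j ≤ ∑ j : ι, (1 : ℝ) := by
          refine Finset.sum_le_sum fun j _ => (φle j).trans ?_
          have := hs0 j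
          have := hs1 j
          nlinarith
      _ = Fintype.card ι := by simp
  · intro t _
    have e : D t = ∑ j, x j * a t j := rfl
    rw [e, Finset.mul_sum, Finset.mul_sum]
    refine Finset.sum_congr rfl fun j _ => ?_
    rw [← mul_assoc, hxj j]
    have e2 : a t j = K t (s j) / w j := rfl
    rw [e2]
    have := (hwpos j).ne'
    field_simp
  · intro t _
    have e : N t = ∑ j, x j * b t j := rfl
    rw [e, Finset.mul_sum, Finset.mul_sum]
    refine Finset.sum_congr rfl fun j _ => ?_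
    rw [← mul_assoc, hxj j]
    have e2 : b t j = s j * K (s j) t / w j := rfl
    rw [e2]
    have := (hwpos j).ne'
    field_simp
  · intro t ht t' ht'
    simp only [hD]
    rw [← Finset.sum_sub_distrib]
    calc |∑ j, (x j * a t j - x j * a t' j)| ≤ ∑ j, |x j * a t j - x j * a t' j| :=
          Finset.abs_sum_le_sum_abs _ _
      _ = ∑ j, x j * |a t j - a t' j| := by
          refine Finset.sum_congr rfl fun j _ => ?_
          rw [← mul_sub, abs_mul, abs_of_nonneg (hx.1 j)]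
      _ ≤ |t - t'| := avg_le hx (a_lip t ht t' ht')
  · intro t ht t' ht'
    simp only [hN]
    rw [← Finset.sum_sub_distrib]
    calc |∑ j, (x j * b t j - x j * b t' j)| ≤ ∑ j, |x j * b t j - x j * b t' j| :=
          Finset.abs_sum_le_sum_abs _ _
      _ = ∑ j, x j * |b t j - b t' j| := by
          refine Finset.sum_congr rfl fun j _ => ?_
          rw [← mul_sub, abs_mul, abs_of_nonneg (hx.1 j)]
      _ ≤ |t - t'| := avg_le hx (b_lip t ht t' ht')
  · have : ∀ j, a 0 j = 1 / 2 := by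
      intro j
      have e2 : a 0 j = K 0 (s j) / w j := rfl
      have e3 : w j = s j * (1 - s j) := rfl
      rw [e2, K_zero _ (hs0 j).le, e3]
      have h1 := (hs0 j).ne'
      have h2 := (sub_pos.2 (hs1 j)).ne'
      field_simp
    simp only [hD, this]
    rw [← Finset.sum_mul, hx.2, one_mul]
  · have : ∀ j, a 1 j = 0 := by
      intro j
      simp only [ha]
      rw [K_one _ (hs1 j).le, zero_div]
    simp only [hD, this]
    simp
  · have : ∀ j, b 0 j = 0 := by
      intro j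
      simp only [hb]
      rw [K_zero' _ (hs0 j).le]
      simp
    simp only [hN, this]
    simp
  · have : ∀ j, b 1 j = 0 := by
      intro j
      simp only [hb]
      rw [K_one' _ (hs1 j).le]
      simp
    simp only [hN, this]
    simp
  · -- lower bound for S
    set θ : ℝ := ∑ j, x j * (1 - s j) with hθ
    have hθpos : 0 < θ := avg_pos hx fun j => sub_pos.2 (hs1 j)
    have hNlow : ∀ t ∈ Icc (0 : ℝ) 1, t * (1 - t) / 2 * θ ≤ N t := by
      intro t ht
      simp only [hN, hθ]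
      rw [Finset.mul_sum]
      refine Finset.sum_le_sum fun j _ => ?_
      have := mul_le_mul_of_nonneg_left (b_low t ht j) (hx.1 j)
      linarith
    have hDhalf : ∀ t ∈ Icc (0 : ℝ) 1, D t ≤ 1 / 2 := by
      intro t ht
      refine avg_le hx fun j => ?_
      simp only [ha]
      rw [div_le_iff₀ (hwpos j)]
      have := K_upper ht.1 ht.2 (hs0 j).le (hs1 j).le
      simp only [hw] at this ⊢
      linarith
    have hφlow : ∀ j, s j ^ 2 * (1 - s j) ^ 2 * θ ≤ w j * (N (s j) / D (s j)) := by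
      intro j
      have hDj : 0 < D (s j) := avg_pos hx (a_pos j)
      have h1 : s j * (1 - s j) * θ ≤ N (s j) / D (s j) := by
        rw [le_div_iff₀ hDj]
        have h2 := hNlow _ (hmem j)
        have h3 := hDhalf _ (hmem j)
        have h4 : 0 ≤ s j * (1 - s j) * θ := (mul_pos (hwpos j) hθpos).le
        nlinarith [mul_le_mul_of_nonneg_left h3 h4]
      have h2 := mul_le_mul_of_nonneg_left h1 (hwpos j).le
      simp only [hw] at h2 ⊢
      nlinarith
    have h1 : (Fintype.card ι : ℝ)⁻¹ * ∑ j, (s j) ^ 2 * (1 - s j) ^ 3 * θ ≤ S * θ := by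
      have e : S * θ = (Fintype.card ι : ℝ)⁻¹ *
          ∑ j, (w j * (N (s j) / D (s j))) * (1 - s j) := by
        rw [hθ, Finset.mul_sum, Finset.mul_sum]
        refine Finset.sum_congr rfl fun j _ => ?_
        rw [← mul_assoc, hxj j]
        ring
      rw [e]
      refine mul_le_mul_of_nonneg_left (Finset.sum_le_sum fun j _ => ?_) (inv_pos.2 hcard).le
      have := mul_le_mul_of_nonneg_right (hφlow j) (sub_pos.2 (hs1 j)).le
      linarith
    rw [← Finset.sum_mul, ← mul_assoc] at h1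
    exact le_of_mul_le_mul_right h1 hθpos

end Pool.Agent.Work.MP_db815f_an
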