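import Mathlib
import Pool.Agent.Work.MP_db815f_an.Discrete

set_option autoImplicit false

open Filter Topology Set Metric MeasureTheory

namespace Pool.Agent.Work.MP_db815f_an

/-- midpoint of the cell of length `1/n` containing `s` -/
noncomputable def nd (n : ℕ) (s : ℝ) : ℝ := (2 * (⌊(n : ℝ) * s⌋ : ℝ) + 1) / (2 * n)

theorem nd_dist {n : ℕ} (hn : 0 < n) (s : ℝ) : |nd n s - s| ≤ 1 / n := by
  have hn' : (0 : ℝ) < n := by exact_mod_cast hn
  have h1 := Int.floor_le ((n : ℝ) * s)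
  have h2 := Int.lt_floor_add_one ((n : ℝ) * s)
  have e : nd n s - s = (2 * (⌊(n : ℝ) * s⌋ : ℝ) + 1 - 2 * (n * s)) / (2 * n) := by
    unfold nd
    field_simp
  rw [e, abs_div, abs_of_pos (by positivity : (0:ℝ) < 2 * n), div_le_div_iff₀ (by positivity) hn']
  have : |2 * (⌊(n : ℝ) * s⌋ : ℝ) + 1 - 2 * (n * s)| ≤ 2 := by
    rw [abs_le]
    constructor <;> linarith
  nlinarith

theorem nd_mem {n : ℕ} (hn : 0 < n) {s : ℝ} (hs : s ∈ Ioo (0 : ℝ) 1) :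
    nd n s ∈ Ioo (0 : ℝ) 1 := by
  have hn' : (0 : ℝ) < n := by exact_mod_cast hn
  have h0 : 0 ≤ ⌊(n : ℝ) * s⌋ := Int.floor_nonneg.2 (mul_pos hn' hs.1).le
  have h1 : ⌊(n : ℝ) * s⌋ < n := by
    rw [Int.floor_lt]
    push_cast
    nlinarith [hs.2]
  have h0' : (0 : ℝ) ≤ (⌊(n : ℝ) * s⌋ : ℝ) := by exact_mod_cast h0
  have h1' : (⌊(n : ℝ) * s⌋ : ℝ) + 1 ≤ n := by exact_mod_cast h1
  unfold nd
  constructor
  · positivity
  · rw [div_lt_one (by positivity)]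
    linarith

theorem nd_measurable (n : ℕ) (h : ℝ → ℝ) : Measurable fun s => h (nd n s) := by
  have : (fun s => h (nd n s)) =
      (fun k : ℤ => h ((2 * (k : ℝ) + 1) / (2 * n))) ∘ fun s : ℝ => ⌊(n : ℝ) * s⌋ := by
    funext s
    rfl
  rw [this]
  exact Measurable.comp (measurable_from_top) (Int.measurable_floor.comp (measurable_const_mul _))

theorem step_integral {n : ℕ} (hn : 0 < n) (h : ℝ → ℝ) :
    ∫ s in Ioo (0 : ℝ) 1, h (nd n s) =
      (n : ℝ)⁻¹ * ∑ j : Fin n, h ((2 * ((j : ℕ) : ℝ) + 1) / (2 * n)) := by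
  have hn' : (0 : ℝ) < n := by exact_mod_cast hn
  rw [← integral_Ioc_eq_integral_Ioo, ← intervalIntegral.integral_of_le zero_le_one]
  have hcell : ∀ k : ℕ, ∀ s ∈ Ioo ((k : ℝ) / n) (((k + 1 : ℕ) : ℝ) / n),
      h (nd n s) = h ((2 * (k : ℝ) + 1) / (2 * n)) := by
    intro k s hs
    have h1 : ⌊(n : ℝ) * s⌋ = (k : ℤ) := by
      rw [Int.floor_eq_iff]
      have e1 := (div_lt_iff₀ hn').1 hs.1
      have e2 := (lt_div_iff₀ hn').1 hs.2
      push_cast at e2 ⊢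
      constructor <;> nlinarith
    unfold nd
    rw [h1]
    simp
  have hle : ∀ k : ℕ, (k : ℝ) / n ≤ ((k + 1 : ℕ) : ℝ) / n := by
    intro k
    apply div_le_div_of_nonneg_right _ hn'.le
    push_cast
    linarith
  have hint : ∀ k < n, IntervalIntegrable (fun s => h (nd n s)) volume
      ((fun k : ℕ => (k : ℝ) / n) k) ((fun k : ℕ => (k : ℝ) / n) (k + 1)) := by
    intro k _
    simp only
    rw [intervalIntegrable_iff_integrableOn_Ioo_of_le (hle k)]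
    refine IntegrableOn.congr_fun (f := fun _ => h ((2 * (k : ℝ) + 1) / (2 * n))) ?_
      (fun s hs => (hcell k s hs).symm) measurableSet_Ioo
    exact integrableOn_const (by simp)
  have hsum := intervalIntegral.sum_integral_adjacent_intervals hint
  simp only [Nat.cast_zero, zero_div, div_self hn'.ne'] at hsum
  rw [← hsum, Finset.sum_range, Finset.mul_sum]
  refine Finset.sum_congr rfl fun j _ => ?_
  rw [intervalIntegral.integral_of_le (hle j), integral_Ioc_eq_integral_Ioo,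
    setIntegral_congr_fun measurableSet_Ioo (hcell j), setIntegral_const]
  have : volume.real (Ioo ((j : ℕ) / (n : ℝ)) (((j : ℕ) + 1 : ℕ) / (n : ℝ))) = (n : ℝ)⁻¹ := by
    rw [Measure.real, Real.volume_Ioo, ENNReal.toReal_ofReal (by linarith [hle j])]
    push_cast
    field_simp
    ring
  rw [this, smul_eq_mul]

theorem subseq (u : ℕ → ℝ → ℝ) (h01 : ∀ n, ∀ t ∈ Icc (0 : ℝ) 1, u n t ∈ Icc (0 : ℝ) 1)
    (hL : ∀ n, ∀ t ∈ Icc (0 : ℝ) 1, ∀ t' ∈ Icc (0 : ℝ) 1, |u n t - u n t'| ≤ |t - t'|) :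
    ∃ φ : ℕ → ℕ, StrictMono φ ∧ ∃ v : ℝ → ℝ, ∀ t ∈ Icc (0 : ℝ) 1,
      Tendsto (fun n => u (φ n) t) atTop (𝓝 (v t)) := by
  set w : ℕ → ℚ → ℝ := fun n q => u n (max 0 (min 1 (q : ℝ))) with hw
  have hclamp : ∀ q : ℚ, max 0 (min 1 (q : ℝ)) ∈ Icc (0 : ℝ) 1 := fun q =>
    ⟨le_max_left _ _, max_le zero_le_one (min_le_left _ _)⟩
  have hmem : ∀ n, w n ∈ Set.pi univ (fun _ : ℚ => Icc (0 : ℝ) 1) := by
    intro n q _
    exact h01 n _ (hclamp q)
  have hcomp : IsCompact (Set.pi univ (fun _ : ℚ => Icc (0 : ℝ) 1)) :=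
    isCompact_univ_pi fun _ => isCompact_Icc
  obtain ⟨a, -, φ, hφ, hlim⟩ := hcomp.tendsto_subseq hmem
  have hq : ∀ q : ℚ, Tendsto (fun n => w (φ n) q) atTop (𝓝 (a q)) := by
    intro q
    exact (tendsto_pi_nhds.1 hlim) q
  have hc : ∀ t ∈ Icc (0 : ℝ) 1, ∃ l, Tendsto (fun n => u (φ n) t) atTop (𝓝 l) := by
    intro t ht
    apply cauchySeq_tendsto_of_complete
    rw [Metric.cauchySeq_iff']
    intro ε hε
    obtain ⟨q, hq1, hq2⟩ := exists_rat_btwn (show t - ε / 8 < t + ε / 8 by linarith)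
    have hqt : |max 0 (min 1 (q : ℝ)) - t| ≤ ε / 8 := by
      rw [abs_le]
      constructor
      · have : t - ε / 8 ≤ max 0 (min 1 (q : ℝ)) := by
          rcases le_total (t - ε / 8) 0 with h | h
          · exact h.trans (le_max_left _ _)
          · refine le_trans ?_ (le_max_right _ _)
            refine le_min (by linarith [ht.2]) hq1.le
        linarith
      · have : max 0 (min 1 (q : ℝ)) ≤ t + ε / 8 := by
          refine max_le (by linarith [ht.1]) ((min_le_right _ _).trans hq2.le)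
        linarith
    obtain ⟨M, hM⟩ := (Metric.cauchySeq_iff'.1 (hq q).cauchySeq) (ε / 4) (by positivity)
    refine ⟨M, fun n hn => ?_⟩
    have h1 := hM n hn
    rw [Real.dist_eq] at h1 ⊢
    have h2 := hL (φ n) _ (hclamp q) t ht
    have h3 := hL (φ M) _ (hclamp q) t ht
    simp only [hw] at h1
    rw [abs_le] at h2 h3 hqt
    rw [abs_lt] at h1 ⊢
    have h4 : |max 0 (min 1 (q : ℝ)) - t| ≤ ε / 8 := abs_le.2 hqt
    constructor <;> linarith [h2.1, h2.2, h3.1, h3.2, h1.1, h1.2]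
  choose! v hv using hc
  exact ⟨φ, hφ, v, hv⟩

/-- bounds for the quotient -/
theorem quot_bound {D N : ℝ → ℝ} (hD : ∀ t ∈ Icc (0 : ℝ) 1, (1 - t) ^ 2 / 2 ≤ D t)
    (hN : ∀ t ∈ Icc (0 : ℝ) 1, 0 ≤ N t) (hND : ∀ t ∈ Icc (0 : ℝ) 1, (1 - t) * N t ≤ t * D t)
    {r : ℝ} (hr : r ∈ Ioo (0 : ℝ) 1) : 0 ≤ N r / D r ∧ (1 - r) * (N r / D r) ≤ r := by
  have hr' : r ∈ Icc (0 : ℝ) 1 := ⟨hr.1.le, hr.2.le⟩
  have hDpos : 0 < D r := by
    refine lt_of_lt_of_le ?_ (hD r hr')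
    have := sub_pos.2 hr.2
    positivity
  refine ⟨div_nonneg (hN r hr') hDpos.le, ?_⟩
  rw [← mul_div_assoc, div_le_iff₀ hDpos]
  exact hND r hr'

theorem kq_bound {D N : ℝ → ℝ} (hD : ∀ t ∈ Icc (0 : ℝ) 1, (1 - t) ^ 2 / 2 ≤ D t)
    (hN : ∀ t ∈ Icc (0 : ℝ) 1, 0 ≤ N t) (hND : ∀ t ∈ Icc (0 : ℝ) 1, (1 - t) * N t ≤ t * D t)
    {r t : ℝ} (hr : r ∈ Ioo (0 : ℝ) 1) (ht : t ∈ Icc (0 : ℝ) 1) :
    ‖K t r * (N r / D r)‖ ≤ 1 ∧ ‖r * K r t * (N r / D r)‖ ≤ 1 := by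
  obtain ⟨h0, h1⟩ := quot_bound hD hN hND hr
  have k0 := K_nonneg ht.1 ht.2 hr.1.le hr.2.le
  have k1 := K_upper ht.1 ht.2 hr.1.le hr.2.le
  have k0' := K_nonneg hr.1.le hr.2.le ht.1 ht.2
  have k1' := K_upper' ht.1 ht.2 hr.1.le hr.2.le
  have hr1 := hr.2
  have hr0 := hr.1
  constructor
  · rw [Real.norm_of_nonneg (mul_nonneg k0 h0)]
    calc K t r * (N r / D r) ≤ r * (1 - r) / 2 * (N r / D r) := mul_le_mul_of_nonneg_right k1 h0
      _ = r / 2 * ((1 - r) * (N r / D r)) := by ring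
      _ ≤ r / 2 * r := mul_le_mul_of_nonneg_left h1 (by linarith)
      _ ≤ 1 := by nlinarith
  · rw [Real.norm_of_nonneg (mul_nonneg (mul_nonneg hr0.le k0') h0)]
    calc r * K r t * (N r / D r) ≤ r * ((1 - r) / 2) * (N r / D r) :=
          mul_le_mul_of_nonneg_right (mul_le_mul_of_nonneg_left k1' hr0.le) h0
      _ = r / 2 * ((1 - r) * (N r / D r)) := by ring
      _ ≤ r / 2 * r := mul_le_mul_of_nonneg_left h1 (by linarith)
      _ ≤ 1 := by nlinarith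

theorem limit_solution : ∃ (D N : ℝ → ℝ) (S : ℝ), 0 < S ∧
    (∀ t ∈ Icc (0 : ℝ) 1, S * D t = ∫ s in Ioo (0 : ℝ) 1, K t s * (N s / D s)) ∧
    (∀ t ∈ Icc (0 : ℝ) 1, S * N t = ∫ s in Ioo (0 : ℝ) 1, s * K s t * (N s / D s)) ∧
    (∀ t ∈ Icc (0 : ℝ) 1, (1 - t) ^ 2 / 2 ≤ D t) ∧
    (∀ t ∈ Icc (0 : ℝ) 1, 0 ≤ N t) ∧
    (∀ t ∈ Icc (0 : ℝ) 1, (1 - t) * N t ≤ t * D t) ∧
    (∀ t ∈ Icc (0 : ℝ) 1, ∀ t' ∈ Icc (0 : ℝ) 1, |D t - D t'| ≤ |t - t'|) ∧
    (∀ t ∈ Icc (0 : ℝ) 1, ∀ t' ∈ Icc (0 : ℝ) 1, |N t - N t'| ≤ |t - t'|) ∧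
    D 0 = 1 / 2 ∧ D 1 = 0 ∧ N 0 = 0 ∧ N 1 = 0 := by
  have hdisc : ∀ n : ℕ, _ := fun n => discrete (ι := Fin (n + 1))
    (fun j => (2 * ((j : ℕ) : ℝ) + 1) / (2 * ((n + 1 : ℕ) : ℝ)))
    (fun j => by positivity)
    (fun j => by
      rw [div_lt_one (by positivity)]
      have : (j : ℕ) < n + 1 := j.2
      have : ((j : ℕ) : ℝ) + 1 ≤ ((n + 1 : ℕ) : ℝ) := by exact_mod_cast this
      linarith)
  choose D N S hS0 hS1 hDe hNe hDb hNb hND hDL hNL hD0 hD1 hN0 hN1 hSl using hdisc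
  simp only [Fintype.card_fin] at hDe hNe hSl
  obtain ⟨φ₁, hφ₁, D', hD'⟩ := subseq D
    (fun n t ht => ⟨le_trans (by positivity) (hDb n t ht).1, (hDb n t ht).2⟩) hDL
  obtain ⟨φ₂, hφ₂, N', hN'⟩ := subseq (fun n => N (φ₁ n))
    (fun n t ht => ⟨(hNb (φ₁ n) t ht).1, (hNb (φ₁ n) t ht).2⟩) (fun n => hNL (φ₁ n))
  obtain ⟨S', -, φ₃, hφ₃, hS'⟩ := (isCompact_Icc (a := (0 : ℝ)) (b := 1)).tendsto_subseq
    (x := fun n => S (φ₁ (φ₂ n))) (fun n => ⟨(hS0 _).le, hS1 _⟩)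
  set ψ : ℕ → ℕ := fun n => φ₁ (φ₂ (φ₃ n)) with hψ
  have hψm : StrictMono ψ := hφ₁.comp (hφ₂.comp hφ₃)
  have hDlim : ∀ t ∈ Icc (0 : ℝ) 1, Tendsto (fun n => D (ψ n) t) atTop (𝓝 (D' t)) := by
    intro t ht
    exact (hD' t ht).comp ((hφ₂.comp hφ₃).tendsto_atTop)
  have hNlim : ∀ t ∈ Icc (0 : ℝ) 1, Tendsto (fun n => N (ψ n) t) atTop (𝓝 (N' t)) := by
    intro t ht
    exact (hN' t ht).comp (hφ₃.tendsto_atTop)
  have hSlim : Tendsto (fun n => S (ψ n)) atTop (𝓝 S') := hS'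
  -- elementary consequences
  have bD : ∀ t ∈ Icc (0 : ℝ) 1, (1 - t) ^ 2 / 2 ≤ D' t := fun t ht =>
    ge_of_tendsto' (hDlim t ht) fun n => (hDb (ψ n) t ht).1
  have bN : ∀ t ∈ Icc (0 : ℝ) 1, 0 ≤ N' t := fun t ht =>
    ge_of_tendsto' (hNlim t ht) fun n => (hNb (ψ n) t ht).1
  have bND : ∀ t ∈ Icc (0 : ℝ) 1, (1 - t) * N' t ≤ t * D' t := fun t ht =>
    le_of_tendsto_of_tendsto' ((hNlim t ht).const_mul _) ((hDlim t ht).const_mul _)
      fun n => hND (ψ n) t ht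
  have hpos : ∀ s ∈ Ioo (0 : ℝ) 1, 0 < D' s := by
    intro s hs
    refine lt_of_lt_of_le ?_ (bD s ⟨hs.1.le, hs.2.le⟩)
    have := sub_pos.2 hs.2
    positivity
  -- nodes converge
  have hψ1 : Tendsto (fun n => ((ψ n + 1 : ℕ) : ℝ)) atTop atTop :=
    tendsto_natCast_atTop_atTop.comp
      ((tendsto_add_atTop_nat 1).comp hψm.tendsto_atTop)
  have hinv : Tendsto (fun n => 1 / ((ψ n + 1 : ℕ) : ℝ)) atTop (𝓝 0) :=
    tendsto_const_nhds.div_atTop hψ1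
  have hnd : ∀ s : ℝ, Tendsto (fun n => nd (ψ n + 1) s) atTop (𝓝 s) := by
    intro s
    rw [tendsto_iff_dist_tendsto_zero]
    refine squeeze_zero (fun _ => dist_nonneg) (fun n => ?_) hinv
    rw [Real.dist_eq]
    exact nd_dist (Nat.succ_pos _) s
  have hDnd : ∀ s ∈ Ioo (0 : ℝ) 1,
      Tendsto (fun n => D (ψ n) (nd (ψ n + 1) s)) atTop (𝓝 (D' s)) := by
    intro s hs
    have hs' : s ∈ Icc (0 : ℝ) 1 := ⟨hs.1.le, hs.2.le⟩
    have h1 : Tendsto (fun n => D (ψ n) (nd (ψ n + 1) s) - D (ψ n) s) atTop (𝓝 0) := by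
      refine squeeze_zero_norm (fun n => ?_) hinv
      have hm := nd_mem (Nat.succ_pos (ψ n)) hs
      refine (hDL (ψ n) _ ⟨hm.1.le, hm.2.le⟩ s hs').trans ?_
      exact nd_dist (Nat.succ_pos _) s
    have := h1.add (hDlim s hs')
    simpa using this
  have hNnd : ∀ s ∈ Ioo (0 : ℝ) 1,
      Tendsto (fun n => N (ψ n) (nd (ψ n + 1) s)) atTop (𝓝 (N' s)) := by
    intro s hs
    have hs' : s ∈ Icc (0 : ℝ) 1 := ⟨hs.1.le, hs.2.le⟩
    have h1 : Tendsto (fun n => N (ψ n) (nd (ψ n + 1) s) - N (ψ n) s) atTop (𝓝 0) := by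
      refine squeeze_zero_norm (fun n => ?_) hinv
      have hm := nd_mem (Nat.succ_pos (ψ n)) hs
      refine (hNL (ψ n) _ ⟨hm.1.le, hm.2.le⟩ s hs').trans ?_
      exact nd_dist (Nat.succ_pos _) s
    have := h1.add (hNlim s hs')
    simpa using this
  have hQ : ∀ s ∈ Ioo (0 : ℝ) 1, Tendsto (fun n => N (ψ n) (nd (ψ n + 1) s) /
      D (ψ n) (nd (ψ n + 1) s)) atTop (𝓝 (N' s / D' s)) := fun s hs =>
    (hNnd s hs).div (hDnd s hs) (hpos s hs).ne'
  refine ⟨D', N', S', ?_, ?_, ?_, bD, bN, bND, ?_, ?_, ?_, ?_, ?_, ?_⟩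
  · -- positivity of S'
    have h1 : ∀ n, ∫ s in Ioo (0 : ℝ) 1, (nd (ψ n + 1) s) ^ 2 * (1 - nd (ψ n + 1) s) ^ 3 ≤
        S (ψ n) := by
      intro n
      rw [step_integral (Nat.succ_pos (ψ n)) (fun r => r ^ 2 * (1 - r) ^ 3)]
      exact hSl (ψ n)
    have h2 : Tendsto (fun n => ∫ s in Ioo (0 : ℝ) 1,
        (nd (ψ n + 1) s) ^ 2 * (1 - nd (ψ n + 1) s) ^ 3) atTop
        (𝓝 (∫ s in Ioo (0 : ℝ) 1, s ^ 2 * (1 - s) ^ 3)) := by
      refine tendsto_integral_of_dominated_convergence (fun _ => (1 : ℝ)) ?_ ?_ ?_ ?_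
      · intro n
        exact (nd_measurable (ψ n + 1) (fun r => r ^ 2 * (1 - r) ^ 3)).aestronglyMeasurable
      · exact integrable_const _
      · intro n
        rw [ae_restrict_iff' measurableSet_Ioo]
        refine Eventually.of_forall fun s hs => ?_
        have hm := nd_mem (Nat.succ_pos (ψ n)) hs
        have e1 : (nd (ψ n + 1) s) ^ 2 ≤ 1 := pow_le_one₀ hm.1.le hm.2.le
        have e2 : (1 - nd (ψ n + 1) s) ^ 3 ≤ 1 :=
          pow_le_one₀ (sub_nonneg.2 hm.2.le) (by linarith [hm.1])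
        have e3 : 0 ≤ (1 - nd (ψ n + 1) s) ^ 3 := pow_nonneg (sub_nonneg.2 hm.2.le) 3
        have e4 : 0 ≤ (nd (ψ n + 1) s) ^ 2 := sq_nonneg _
        rw [Real.norm_of_nonneg (mul_nonneg e4 e3)]
        nlinarith
      · rw [ae_restrict_iff' measurableSet_Ioo]
        refine Eventually.of_forall fun s _ => ?_
        exact ((hnd s).pow 2).mul ((tendsto_const_nhds.sub (hnd s)).pow 3)
    have h3 := le_of_tendsto_of_tendsto' h2 hSlim h1
    refine lt_of_lt_of_le ?_ h3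
    rw [← integral_Ioc_eq_integral_Ioo, ← intervalIntegral.integral_of_le zero_le_one]
    apply intervalIntegral.intervalIntegral_pos_of_pos_on
    · apply Continuous.intervalIntegrable
      fun_prop
    · intro s hs
      have := sub_pos.2 hs.2
      have := hs.1
      positivity
    · norm_num
  · intro t ht
    have h1 : ∀ n, S (ψ n) * D (ψ n) t = ∫ s in Ioo (0 : ℝ) 1,
        K t (nd (ψ n + 1) s) * (N (ψ n) (nd (ψ n + 1) s) / D (ψ n) (nd (ψ n + 1) s)) := by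
      intro n
      rw [step_integral (Nat.succ_pos (ψ n)) (fun r => K t r * (N (ψ n) r / D (ψ n) r))]
      exact hDe (ψ n) t ht
    have h2 : Tendsto (fun n => ∫ s in Ioo (0 : ℝ) 1,
        K t (nd (ψ n + 1) s) * (N (ψ n) (nd (ψ n + 1) s) / D (ψ n) (nd (ψ n + 1) s))) atTop
        (𝓝 (∫ s in Ioo (0 : ℝ) 1, K t s * (N' s / D' s))) := by
      refine tendsto_integral_of_dominated_convergence (fun _ => (1 : ℝ)) ?_ ?_ ?_ ?_
      · intro n
        exact (nd_measurable (ψ n + 1)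
          (fun r => K t r * (N (ψ n) r / D (ψ n) r))).aestronglyMeasurable
      · exact integrable_const _
      · intro n
        rw [ae_restrict_iff' measurableSet_Ioo]
        refine Eventually.of_forall fun s hs => ?_
        exact (kq_bound (fun t ht => (hDb (ψ n) t ht).1) (fun t ht => (hNb (ψ n) t ht).1)
          (hND (ψ n)) (nd_mem (Nat.succ_pos (ψ n)) hs) ht).1
      · rw [ae_restrict_iff' measurableSet_Ioo]
        refine Eventually.of_forall fun s hs => ?_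
        have hk : Continuous fun r => K t r := K_cont.comp (by fun_prop : Continuous fun r => (t, r))
        exact ((hk.tendsto s).comp (hnd s)).mul (hQ s hs)
    have h3 : Tendsto (fun n => S (ψ n) * D (ψ n) t) atTop (𝓝 (S' * D' t)) :=
      hSlim.mul (hDlim t ht)
    exact tendsto_nhds_unique h3 (h2.congr fun n => (h1 n).symm)
  · intro t ht
    have h1 : ∀ n, S (ψ n) * N (ψ n) t = ∫ s in Ioo (0 : ℝ) 1,
        nd (ψ n + 1) s * K (nd (ψ n + 1) s) t *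
          (N (ψ n) (nd (ψ n + 1) s) / D (ψ n) (nd (ψ n + 1) s)) := by
      intro n
      rw [step_integral (Nat.succ_pos (ψ n)) (fun r => r * K r t * (N (ψ n) r / D (ψ n) r))]
      exact hNe (ψ n) t ht
    have h2 : Tendsto (fun n => ∫ s in Ioo (0 : ℝ) 1,
        nd (ψ n + 1) s * K (nd (ψ n + 1) s) t *
          (N (ψ n) (nd (ψ n + 1) s) / D (ψ n) (nd (ψ n + 1) s))) atTop
        (𝓝 (∫ s in Ioo (0 : ℝ) 1, s * K s t * (N' s / D' s))) := by
      refine tendsto_integral_of_dominated_convergence (fun _ => (1 : ℝ)) ?_ ?_ ?_ ?_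
      · intro n
        exact (nd_measurable (ψ n + 1)
          (fun r => r * K r t * (N (ψ n) r / D (ψ n) r))).aestronglyMeasurable
      · exact integrable_const _
      · intro n
        rw [ae_restrict_iff' measurableSet_Ioo]
        refine Eventually.of_forall fun s hs => ?_
        exact (kq_bound (fun t ht => (hDb (ψ n) t ht).1) (fun t ht => (hNb (ψ n) t ht).1)
          (hND (ψ n)) (nd_mem (Nat.succ_pos (ψ n)) hs) ht).2
      · rw [ae_restrict_iff' measurableSet_Ioo]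
        refine Eventually.of_forall fun s hs => ?_
        have hk : Continuous fun r => r * K r t :=
          continuous_id.mul (K_cont.comp (by fun_prop : Continuous fun r => (r, t)))
        exact ((hk.tendsto s).comp (hnd s)).mul (hQ s hs)
    have h3 : Tendsto (fun n => S (ψ n) * N (ψ n) t) atTop (𝓝 (S' * N' t)) :=
      hSlim.mul (hNlim t ht)
    exact tendsto_nhds_unique h3 (h2.congr fun n => (h1 n).symm)
  · intro t ht t' ht'
    exact le_of_tendsto' ((hDlim t ht).sub (hDlim t' ht')).abs fun n => hDL (ψ n) t ht t' ht'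
  · intro t ht t' ht'
    exact le_of_tendsto' ((hNlim t ht).sub (hNlim t' ht')).abs fun n => hNL (ψ n) t ht t' ht'
  · have h0 : (0 : ℝ) ∈ Icc (0 : ℝ) 1 := ⟨le_rfl, zero_le_one⟩
    exact tendsto_nhds_unique (hDlim 0 h0) ((tendsto_congr fun n => hD0 (ψ n)).2 tendsto_const_nhds)
  · have h0 : (1 : ℝ) ∈ Icc (0 : ℝ) 1 := ⟨zero_le_one, le_rfl⟩
    exact tendsto_nhds_unique (hDlim 1 h0) ((tendsto_congr fun n => hD1 (ψ n)).2 tendsto_const_nhds)
  · have h0 : (0 : ℝ) ∈ Icc (0 : ℝ) 1 := ⟨le_rfl, zero_le_one⟩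
    exact tendsto_nhds_unique (hNlim 0 h0) ((tendsto_congr fun n => hN0 (ψ n)).2 tendsto_const_nhds)
  · have h0 : (1 : ℝ) ∈ Icc (0 : ℝ) 1 := ⟨zero_le_one, le_rfl⟩
    exact tendsto_nhds_unique (hNlim 1 h0) ((tendsto_congr fun n => hN1 (ψ n)).2 tendsto_const_nhds)

end Pool.Agent.Work.MP_db815f_an
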