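import Mathlib
import Pool.Agent.Work.MP_db815f_an.Limit

set_option autoImplicit false

open Filter Topology Set Metric MeasureTheory

namespace Pool.Agent.Work.MP_db815f_an

/-- a solution of the integral system -/
structure Sol (D N : ℝ → ℝ) (S : ℝ) : Prop where
  S_pos : 0 < S
  eqD : ∀ t ∈ Icc (0 : ℝ) 1, S * D t = ∫ s in Ioo (0 : ℝ) 1, K t s * (N s / D s)
  eqN : ∀ t ∈ Icc (0 : ℝ) 1, S * N t = ∫ s in Ioo (0 : ℝ) 1, s * K s t * (N s / D s)
  lowD : ∀ t ∈ Icc (0 : ℝ) 1, (1 - t) ^ 2 / 2 ≤ D t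
  nonnegN : ∀ t ∈ Icc (0 : ℝ) 1, 0 ≤ N t
  ratio : ∀ t ∈ Icc (0 : ℝ) 1, (1 - t) * N t ≤ t * D t
  lipD : ∀ t ∈ Icc (0 : ℝ) 1, ∀ t' ∈ Icc (0 : ℝ) 1, |D t - D t'| ≤ |t - t'|
  lipN : ∀ t ∈ Icc (0 : ℝ) 1, ∀ t' ∈ Icc (0 : ℝ) 1, |N t - N t'| ≤ |t - t'|
  D0 : D 0 = 1 / 2
  D1 : D 1 = 0
  N0 : N 0 = 0
  N1 : N 1 = 0

theorem exists_sol : ∃ (D N : ℝ → ℝ) (S : ℝ), Sol D N S := by
  obtain ⟨D, N, S, h1, h2, h3, h4, h5, h6, h7, h8, h9, h10, h11, h12⟩ := limit_solution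
  exact ⟨D, N, S, h1, h2, h3, h4, h5, h6, h7, h8, h9, h10, h11, h12⟩

theorem cont_of_lip {u : ℝ → ℝ}
    (h : ∀ t ∈ Icc (0 : ℝ) 1, ∀ t' ∈ Icc (0 : ℝ) 1, |u t - u t'| ≤ |t - t'|) :
    ContinuousOn u (Icc 0 1) := by
  have : LipschitzOnWith 1 u (Icc 0 1) := by
    apply LipschitzOnWith.of_dist_le_mul
    intro x hx y hy
    rw [Real.dist_eq, Real.dist_eq]
    simpa using h x hx y hy
  exact this.continuousOn

/-- odd extension of `N/D` -/
noncomputable def fe (D N : ℝ → ℝ) (t : ℝ) : ℝ :=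
  N (max t 0) / D (max t 0) - N (max (-t) 0) / D (max (-t) 0)

theorem fe_odd (D N : ℝ → ℝ) (t : ℝ) : fe D N (-t) = - fe D N t := by
  unfold fe
  rw [neg_neg]
  ring

noncomputable def I (D N : ℝ → ℝ) (k : ℕ) (t : ℝ) : ℝ := ∫ s in (0 : ℝ)..t, s ^ k * fe D N s

theorem I_neg (D N : ℝ → ℝ) (k : ℕ) (t : ℝ) : I D N k (-t) = (-1) ^ k * I D N k t := by
  unfold I
  rw [intervalIntegral.integral_symm]
  have h1 : ∫ s in (-t)..(0 : ℝ), s ^ k * fe D N s = ∫ s in (0 : ℝ)..t, (-s) ^ k * fe D N (-s) := by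
    rw [intervalIntegral.integral_comp_neg (fun s => s ^ k * fe D N s), neg_zero]
  rw [h1, ← intervalIntegral.integral_const_mul, ← intervalIntegral.integral_neg]
  congr 1
  funext s
  rw [fe_odd, neg_pow]
  ring

section

variable {D N : ℝ → ℝ} {S : ℝ}

theorem Sol.D_pos (h : Sol D N S) {t : ℝ} (ht : t ∈ Ico (0 : ℝ) 1) : 0 < D t := by
  refine lt_of_lt_of_le ?_ (h.lowD t ⟨ht.1, ht.2.le⟩)
  have := sub_pos.2 ht.2
  positivity

theorem Sol.cont_psi (h : Sol D N S) : ContinuousOn (fun t => N t / D t) (Ico 0 1) :=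
  ContinuousOn.div ((cont_of_lip h.lipN).mono Ico_subset_Icc_self)
    ((cont_of_lip h.lipD).mono Ico_subset_Icc_self) fun _ ht => (h.D_pos ht).ne'

theorem Sol.cont_fe (h : Sol D N S) : ContinuousOn (fe D N) (Ioo (-1) 1) := by
  unfold fe
  refine ContinuousOn.sub ?_ ?_
  · refine h.cont_psi.comp (f := fun t : ℝ => max t 0) (by fun_prop) ?_
    intro t ht
    exact ⟨le_max_right _ _, max_lt ht.2 one_pos⟩
  · refine h.cont_psi.comp (f := fun t : ℝ => max (-t) 0) (by fun_prop) ?_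
    intro t ht
    exact ⟨le_max_right _ _, max_lt (by linarith [ht.1]) one_pos⟩

theorem Sol.fe_eq (h : Sol D N S) {t : ℝ} (ht : 0 ≤ t) : fe D N t = N t / D t := by
  unfold fe
  rw [max_eq_left ht, max_eq_right (by linarith), h.N0]
  simp

theorem Sol.quot (h : Sol D N S) {r : ℝ} (hr : r ∈ Ioo (0 : ℝ) 1) :
    0 ≤ N r / D r ∧ (1 - r) * (N r / D r) ≤ r :=
  quot_bound h.lowD h.nonnegN h.ratio hr

theorem Sol.contI (h : Sol D N S) (k : ℕ) :
    ContinuousOn (fun s => s ^ k * fe D N s) (Ioo (-1) 1) :=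
  ContinuousOn.mul (by fun_prop) h.cont_fe

theorem uIcc_sub {t : ℝ} (ht : t ∈ Ioo (-1 : ℝ) 1) : uIcc 0 t ⊆ Ioo (-1 : ℝ) 1 := by
  intro s hs
  rcases le_total 0 t with h | h
  · rw [uIcc_of_le h] at hs
    exact ⟨by linarith [hs.1], by linarith [hs.2, ht.2]⟩
  · rw [uIcc_of_ge h] at hs
    exact ⟨by linarith [hs.1, ht.1], by linarith [hs.2]⟩

theorem Sol.intI (h : Sol D N S) (k : ℕ) {t : ℝ} (ht : t ∈ Ioo (-1 : ℝ) 1) :
    IntervalIntegrable (fun s => s ^ k * fe D N s) volume 0 t :=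
  ((h.contI k).mono (uIcc_sub ht)).intervalIntegrable

theorem Sol.derivI (h : Sol D N S) (k : ℕ) {t : ℝ} (ht : t ∈ Ioo (-1 : ℝ) 1) :
    HasDerivAt (I D N k) (t ^ k * fe D N t) t := by
  refine intervalIntegral.integral_hasDerivAt_right (h.intI k ht) ?_ ?_
  · exact (h.contI k).stronglyMeasurableAtFilter isOpen_Ioo t ht
  · exact (h.contI k).continuousAt (isOpen_Ioo.mem_nhds ht)

theorem Sol.integrable (h : Sol D N S) {c : ℝ → ℝ} (hc : Continuous c)
    (hb : ∀ s ∈ Ioo (0 : ℝ) 1, |c s| ≤ 1 - s) :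
    IntegrableOn (fun s => c s * (N s / D s)) (Ioo 0 1) := by
  refine Integrable.mono' (g := fun _ => (1 : ℝ)) (integrable_const _) ?_ ?_
  · refine ContinuousOn.aestronglyMeasurable ?_ measurableSet_Ioo
    exact hc.continuousOn.mul (h.cont_psi.mono Ioo_subset_Ico_self)
  · rw [ae_restrict_iff' measurableSet_Ioo]
    refine Eventually.of_forall fun s hs => ?_
    obtain ⟨q0, q1⟩ := h.quot hs
    rw [norm_mul, Real.norm_eq_abs, Real.norm_of_nonneg q0]
    calc |c s| * (N s / D s) ≤ (1 - s) * (N s / D s) := mul_le_mul_of_nonneg_right (hb s hs) q0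
      _ ≤ 1 := q1.trans hs.2.le

/-- constants -/
noncomputable def P0 (D N : ℝ → ℝ) : ℝ := ∫ s in Ioo (0 : ℝ) 1, s * (1 - s) * (N s / D s)
noncomputable def P1 (D N : ℝ → ℝ) : ℝ := ∫ s in Ioo (0 : ℝ) 1, (1 - s) * (N s / D s)
noncomputable def P2 (D N : ℝ → ℝ) : ℝ := ∫ s in Ioo (0 : ℝ) 1, s * (1 - s) ^ 2 * (N s / D s)

theorem Sol.int0 (h : Sol D N S) :
    IntegrableOn (fun s => s * (1 - s) * (N s / D s)) (Ioo 0 1) := by
  refine h.integrable (by fun_prop) fun s hs => ?_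
  rw [abs_of_nonneg (mul_nonneg hs.1.le (sub_nonneg.2 hs.2.le))]
  nlinarith [hs.1, hs.2]

theorem Sol.int1 (h : Sol D N S) :
    IntegrableOn (fun s => (1 - s) * (N s / D s)) (Ioo 0 1) := by
  refine h.integrable (by fun_prop) fun s hs => ?_
  rw [abs_of_nonneg (sub_nonneg.2 hs.2.le)]

theorem Sol.int2 (h : Sol D N S) :
    IntegrableOn (fun s => s * (1 - s) ^ 2 * (N s / D s)) (Ioo 0 1) := by
  refine h.integrable (by fun_prop) fun s hs => ?_
  have h1 := hs.1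
  have h2 := sub_pos.2 hs.2
  rw [abs_of_nonneg (by positivity)]
  have : (1 - s) ^ 2 ≤ (1 - s) := by nlinarith
  nlinarith [hs.2, mul_le_mul_of_nonneg_left this h1.le]

theorem Sol.int3 (h : Sol D N S) {t : ℝ} (ht : t ∈ Ico (0 : ℝ) 1) :
    IntegrableOn (fun s => (max (t - s) 0) ^ 2 / 2 * (N s / D s)) (Ioo 0 1) := by
  refine h.integrable (by fun_prop) fun s hs => ?_
  have h1 : max (t - s) 0 ≤ 1 - s := max_le (by linarith [ht.2]) (by linarith [hs.2])
  have h0 : 0 ≤ max (t - s) 0 := le_max_right _ _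
  rw [abs_of_nonneg (by positivity)]
  nlinarith [hs.1, hs.2]

theorem Sol.int4 (h : Sol D N S) {t : ℝ} (ht : t ∈ Ico (0 : ℝ) 1) :
    IntegrableOn (fun s => s * (max (t - s) 0) ^ 2 / 2 * (N s / D s)) (Ioo 0 1) := by
  refine h.integrable (by fun_prop) fun s hs => ?_
  have h1 : max (t - s) 0 ≤ 1 - s := max_le (by linarith [ht.2]) (by linarith [hs.2])
  have h0 : 0 ≤ max (t - s) 0 := le_max_right _ _
  have h2 := hs.1
  rw [abs_of_nonneg (by positivity)]
  have h3 : (max (t - s) 0) ^ 2 ≤ 1 - s := by nlinarith [hs.1, hs.2]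
  nlinarith [hs.1, hs.2]

theorem Sol.tri (h : Sol D N S) (c : ℝ → ℝ) {t : ℝ} (ht : t ∈ Ico (0 : ℝ) 1) :
    ∫ s in Ioo (0 : ℝ) 1, c s * (max (t - s) 0) ^ 2 / 2 * (N s / D s) =
      ∫ s in (0 : ℝ)..t, c s * (t - s) ^ 2 / 2 * fe D N s := by
  rw [intervalIntegral.integral_of_le ht.1]
  have hsub : Ioc (0 : ℝ) t ⊆ Ioo 0 1 := fun s hs => ⟨hs.1, lt_of_le_of_lt hs.2 ht.2⟩
  rw [setIntegral_eq_of_subset_of_forall_sdiff_eq_zero measurableSet_Ioo hsub]
  · refine setIntegral_congr_fun measurableSet_Ioc fun s hs => ?_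
    rw [h.fe_eq hs.1.le, max_eq_left (sub_nonneg.2 hs.2)]
  · intro s hs
    have : t < s := by
      by_contra hcon
      exact hs.2 ⟨hs.1.1, not_lt.1 hcon⟩
    rw [max_eq_right (by linarith)]
    simp

theorem Sol.expand (h : Sol D N S) (k : ℕ) {t : ℝ} (ht : t ∈ Ioo (-1 : ℝ) 1) :
    ∫ s in (0 : ℝ)..t, s ^ k * (t - s) ^ 2 / 2 * fe D N s =
      (t ^ 2 * I D N k t - 2 * t * I D N (k + 1) t + I D N (k + 2) t) / 2 := by
  unfold I
  rw [← intervalIntegral.integral_const_mul, ← intervalIntegral.integral_const_mul,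
    ← intervalIntegral.integral_sub ((h.intI k ht).const_mul _) ((h.intI (k + 1) ht).const_mul _),
    ← intervalIntegral.integral_add
      (((h.intI k ht).const_mul _).sub ((h.intI (k + 1) ht).const_mul _)) (h.intI (k + 2) ht),
    ← intervalIntegral.integral_div]
  congr 1
  funext s
  ring

/-- the even extension of `D` -/
noncomputable def De (D N : ℝ → ℝ) (S : ℝ) (t : ℝ) : ℝ :=
  (P0 D N - t ^ 2 * P1 D N + (t ^ 2 * I D N 0 t - 2 * t * I D N 1 t + I D N 2 t)) / (2 * S)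

/-- the odd extension of `N` -/
noncomputable def Ne (D N : ℝ → ℝ) (S : ℝ) (t : ℝ) : ℝ :=
  (t * P2 D N - (t ^ 2 * I D N 1 t - 2 * t * I D N 2 t + I D N 3 t)) / (2 * S)

theorem De_even (D N : ℝ → ℝ) (S t : ℝ) : De D N S (-t) = De D N S t := by
  unfold De
  rw [I_neg, I_neg, I_neg]
  congr 1
  ring

theorem Ne_odd (D N : ℝ → ℝ) (S t : ℝ) : Ne D N S (-t) = - Ne D N S t := by
  unfold Ne
  rw [I_neg, I_neg, I_neg]
  rw [← neg_div]
  congr 1
  ring

theorem Sol.De_eq (h : Sol D N S) {t : ℝ} (ht : t ∈ Ico (0 : ℝ) 1) : De D N S t = D t := by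
  have ht' : t ∈ Ioo (-1 : ℝ) 1 := ⟨by linarith [ht.1], ht.2⟩
  have e := h.eqD t ⟨ht.1, ht.2.le⟩
  have e2 : ∫ s in Ioo (0 : ℝ) 1, K t s * (N s / D s) =
      P0 D N / 2 - t ^ 2 / 2 * P1 D N +
        (t ^ 2 * I D N 0 t - 2 * t * I D N 1 t + I D N 2 t) / 2 := by
    have e3 : ∀ s, K t s * (N s / D s) = (1 / 2 * (s * (1 - s) * (N s / D s)) -
        t ^ 2 / 2 * ((1 - s) * (N s / D s))) + (max (t - s) 0) ^ 2 / 2 * (N s / D s) := by
      intro s
      rw [K_eq]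
      ring
    simp_rw [e3]
    have i0 : IntegrableOn (fun s => 1 / 2 * (s * (1 - s) * (N s / D s))) (Ioo 0 1) :=
      h.int0.const_mul _
    have i1 : IntegrableOn (fun s => t ^ 2 / 2 * ((1 - s) * (N s / D s))) (Ioo 0 1) :=
      h.int1.const_mul _
    have i01 : IntegrableOn (fun s => 1 / 2 * (s * (1 - s) * (N s / D s)) -
        t ^ 2 / 2 * ((1 - s) * (N s / D s))) (Ioo 0 1) := i0.sub i1
    rw [integral_add i01 (h.int3 ht), integral_sub i0 i1, integral_const_mul,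
      integral_const_mul]
    have e4 := h.tri (fun _ => 1) ht
    have e5 := h.expand 0 ht'
    simp only [one_mul, pow_zero, zero_add] at e4 e5
    rw [e4, e5]
    unfold P0 P1
    ring
  rw [e2] at e
  unfold De
  rw [div_eq_iff (by have := h.S_pos; positivity)]
  linarith

theorem Sol.Ne_eq (h : Sol D N S) {t : ℝ} (ht : t ∈ Ico (0 : ℝ) 1) : Ne D N S t = N t := by
  have ht' : t ∈ Ioo (-1 : ℝ) 1 := ⟨by linarith [ht.1], ht.2⟩
  have e := h.eqN t ⟨ht.1, ht.2.le⟩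
  have e2 : ∫ s in Ioo (0 : ℝ) 1, s * K s t * (N s / D s) =
      t / 2 * P2 D N -
        (t ^ 2 * I D N 1 t - 2 * t * I D N 2 t + I D N 3 t) / 2 := by
    have e3 : ∀ s, s * K s t * (N s / D s) = t / 2 * (s * (1 - s) ^ 2 * (N s / D s)) -
        s * (max (t - s) 0) ^ 2 / 2 * (N s / D s) := by
      intro s
      rw [K_eq']
      ring
    simp_rw [e3]
    rw [integral_sub (h.int2.const_mul _) (h.int4 ht), integral_const_mul]
    have e4 := h.tri (fun s => s) ht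
    have e5 := h.expand 1 ht'
    simp only [pow_one] at e5
    rw [e4, e5]
    unfold P2
    norm_num
  rw [e2] at e
  unfold Ne
  rw [div_eq_iff (by have := h.S_pos; positivity)]
  linarith

theorem Sol.De_pos (h : Sol D N S) {t : ℝ} (ht : t ∈ Ioo (-1 : ℝ) 1) : 0 < De D N S t := by
  rcases le_total 0 t with h0 | h0
  · rw [h.De_eq ⟨h0, ht.2⟩]
    exact h.D_pos ⟨h0, ht.2⟩
  · have h1 : -t ∈ Ico (0 : ℝ) 1 := ⟨by linarith, by linarith [ht.1]⟩
    rw [← De_even, h.De_eq h1]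
    exact h.D_pos h1

theorem Sol.fe_quot (h : Sol D N S) {t : ℝ} (ht : t ∈ Ioo (-1 : ℝ) 1) :
    fe D N t = Ne D N S t / De D N S t := by
  rcases le_total 0 t with h0 | h0
  · rw [h.De_eq ⟨h0, ht.2⟩, h.Ne_eq ⟨h0, ht.2⟩, h.fe_eq h0]
  · have h1 : -t ∈ Ico (0 : ℝ) 1 := ⟨by linarith, by linarith [ht.1]⟩
    have e1 : fe D N t = - fe D N (-t) := by rw [fe_odd]; ring
    have e2 : Ne D N S t = - Ne D N S (-t) := by rw [Ne_odd]; ring
    rw [e1, e2, ← De_even, h.De_eq h1, h.Ne_eq h1, h.fe_eq h1.1, neg_div]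

/-- first derivative of `De` -/
noncomputable def De1 (D N : ℝ → ℝ) (S : ℝ) (t : ℝ) : ℝ :=
  (-(t * P1 D N) + (t * I D N 0 t - I D N 1 t)) / S

noncomputable def De2 (D N : ℝ → ℝ) (S : ℝ) (t : ℝ) : ℝ := (-P1 D N + I D N 0 t) / S

noncomputable def Ne1 (D N : ℝ → ℝ) (S : ℝ) (t : ℝ) : ℝ :=
  (P2 D N / 2 - (t * I D N 1 t - I D N 2 t)) / S

theorem Sol.deriv_De (h : Sol D N S) {t : ℝ} (ht : t ∈ Ioo (-1 : ℝ) 1) :
    HasDerivAt (De D N S) (De1 D N S t) t := by
  have hI0 := h.derivI 0 ht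
  have hI1 := h.derivI 1 ht
  have hI2 := h.derivI 2 ht
  have hid := hasDerivAt_id t
  have hsq : HasDerivAt (fun x : ℝ => x ^ 2) (2 * t) t := by simpa using hasDerivAt_pow 2 t
  have h2t : HasDerivAt (fun x : ℝ => 2 * x) 2 t := by simpa using hid.const_mul 2
  have := (((hsq.mul_const (P1 D N)).const_sub (P0 D N)).add
    (((hsq.mul hI0).sub (h2t.mul hI1)).add hI2)).div_const (2 * S)
  refine this.congr_deriv ?_
  unfold De1
  have := h.S_pos.ne'
  field_simp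
  ring

theorem Sol.deriv_De1 (h : Sol D N S) {t : ℝ} (ht : t ∈ Ioo (-1 : ℝ) 1) :
    HasDerivAt (De1 D N S) (De2 D N S t) t := by
  have hI0 := h.derivI 0 ht
  have hI1 := h.derivI 1 ht
  have hid := hasDerivAt_id t
  have := (((hid.mul_const (P1 D N)).neg).add ((hid.mul hI0).sub hI1)).div_const S
  refine this.congr_deriv ?_
  unfold De2
  simp only [id]
  congr 1
  ring

theorem Sol.deriv_De2 (h : Sol D N S) {t : ℝ} (ht : t ∈ Ioo (-1 : ℝ) 1) :
    HasDerivAt (De2 D N S) (fe D N t / S) t := by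
  have hI0 := h.derivI 0 ht
  have := (hI0.const_add (-P1 D N)).div_const S
  refine this.congr_deriv ?_
  congr 1
  ring

theorem Sol.deriv_Ne (h : Sol D N S) {t : ℝ} (ht : t ∈ Ioo (-1 : ℝ) 1) :
    HasDerivAt (Ne D N S) (Ne1 D N S t) t := by
  have hI1 := h.derivI 1 ht
  have hI2 := h.derivI 2 ht
  have hI3 := h.derivI 3 ht
  have hid := hasDerivAt_id t
  have hsq : HasDerivAt (fun x : ℝ => x ^ 2) (2 * t) t := by simpa using hasDerivAt_pow 2 t
  have h2t : HasDerivAt (fun x : ℝ => 2 * x) 2 t := by simpa using hid.const_mul 2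
  have := ((hid.mul_const (P2 D N)).sub
    (((hsq.mul hI1).sub (h2t.mul hI2)).add hI3)).div_const (2 * S)
  refine this.congr_deriv ?_
  unfold Ne1
  have := h.S_pos.ne'
  field_simp
  ring

theorem Sol.cont_of_I (h : Sol D N S) (k : ℕ) : ContinuousOn (I D N k) (Ioo (-1) 1) :=
  fun _ ht => (h.derivI k ht).continuousAt.continuousWithinAt

theorem Sol.deriv_fe (h : Sol D N S) {t : ℝ} (ht : t ∈ Ioo (-1 : ℝ) 1) :
    HasDerivAt (fe D N) ((Ne1 D N S t * De D N S t - Ne D N S t * De1 D N S t) /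
      (De D N S t) ^ 2) t := by
  have h1 := (h.deriv_Ne ht).div (h.deriv_De ht) (h.De_pos ht).ne'
  refine h1.congr_of_eventuallyEq ?_
  filter_upwards [isOpen_Ioo.mem_nhds ht] with x hx
  exact h.fe_quot hx

theorem Sol.cont_dfe (h : Sol D N S) : ContinuousOn
    (fun t => (Ne1 D N S t * De D N S t - Ne D N S t * De1 D N S t) /
      (De D N S t) ^ 2) (Ioo (-1) 1) := by
  have cD : ContinuousOn (De D N S) (Ioo (-1) 1) :=
    fun _ ht => (h.deriv_De ht).continuousAt.continuousWithinAt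
  have cN : ContinuousOn (Ne D N S) (Ioo (-1) 1) :=
    fun _ ht => (h.deriv_Ne ht).continuousAt.continuousWithinAt
  have cD1 : ContinuousOn (De1 D N S) (Ioo (-1) 1) :=
    fun _ ht => (h.deriv_De1 ht).continuousAt.continuousWithinAt
  have cN1 : ContinuousOn (Ne1 D N S) (Ioo (-1) 1) := by
    unfold Ne1
    have c1 := h.cont_of_I 1
    have c2 := h.cont_of_I 2
    fun_prop
  refine ContinuousOn.div ((cN1.mul cD).sub (cN.mul cD1)) (cD.pow 2) ?_
  intro t ht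
  exact pow_ne_zero 2 (h.De_pos ht).ne'

/-- the constant `c₁` -/
noncomputable def c1 (D N : ℝ → ℝ) (S : ℝ) : ℝ := (P0 D N - P2 D N / 2) / S

theorem Sol.identity (h : Sol D N S) (t : ℝ) :
    Ne1 D N S t = 2 * De D N S t - t * De1 D N S t - c1 D N S := by
  unfold Ne1 De De1 c1
  have := h.S_pos.ne'
  field_simp
  ring

theorem Sol.P0_eq (h : Sol D N S) : P0 D N = S := by
  have e := h.De_eq (t := 0) ⟨le_rfl, one_pos⟩
  rw [h.D0] at e
  unfold De I at e
  have := h.S_pos.ne'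
  simp only [intervalIntegral.integral_same] at e
  field_simp at e
  linarith

theorem Sol.c1_pos (h : Sol D N S) : 0 < c1 D N S := by
  have h1 : P2 D N ≤ P0 D N := by
    unfold P0 P2
    refine setIntegral_mono_on h.int2 h.int0 measurableSet_Ioo fun s hs => ?_
    obtain ⟨q0, -⟩ := h.quot hs
    refine mul_le_mul_of_nonneg_right ?_ q0
    have : (1 - s) ^ 2 ≤ 1 - s := by nlinarith [hs.1, hs.2]
    nlinarith [hs.1, hs.2]
  have h2 := h.P0_eq
  have := h.S_pos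
  unfold c1
  apply div_pos _ this
  linarith

theorem Sol.lim_De (h : Sol D N S) : Tendsto (De D N S) (𝓝[<] 1) (𝓝 0) := by
  have h1 : Tendsto D (𝓝[<] 1) (𝓝 0) := by
    have hc := (cont_of_lip h.lipD) 1 ⟨zero_le_one, le_rfl⟩
    have h2 : Tendsto D (𝓝[Icc 0 1] 1) (𝓝 (D 1)) := hc
    rw [h.D1] at h2
    refine h2.mono_left ?_
    rw [nhdsWithin_le_iff]
    have : Ioo (0 : ℝ) 1 ∈ 𝓝[<] (1 : ℝ) := Ioo_mem_nhdsLT zero_lt_one
    filter_upwards [this] with x hx using ⟨hx.1.le, hx.2.le⟩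
  refine h1.congr' ?_
  have : Ioo (0 : ℝ) 1 ∈ 𝓝[<] (1 : ℝ) := Ioo_mem_nhdsLT zero_lt_one
  filter_upwards [this] with x hx using (h.De_eq ⟨hx.1.le, hx.2⟩).symm

theorem Sol.lim_Ne (h : Sol D N S) : Tendsto (Ne D N S) (𝓝[<] 1) (𝓝 0) := by
  have h1 : Tendsto N (𝓝[<] 1) (𝓝 0) := by
    have hc := (cont_of_lip h.lipN) 1 ⟨zero_le_one, le_rfl⟩
    have h2 : Tendsto N (𝓝[Icc 0 1] 1) (𝓝 (N 1)) := hc
    rw [h.N1] at h2
    refine h2.mono_left ?_
    rw [nhdsWithin_le_iff]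
    have : Ioo (0 : ℝ) 1 ∈ 𝓝[<] (1 : ℝ) := Ioo_mem_nhdsLT zero_lt_one
    filter_upwards [this] with x hx using ⟨hx.1.le, hx.2.le⟩
  refine h1.congr' ?_
  have : Ioo (0 : ℝ) 1 ∈ 𝓝[<] (1 : ℝ) := Ioo_mem_nhdsLT zero_lt_one
  filter_upwards [this] with x hx using (h.Ne_eq ⟨hx.1.le, hx.2⟩).symm

theorem Sol.I1_bound (h : Sol D N S) {t : ℝ} (ht : t ∈ Ico (0 : ℝ) 1) :
    0 ≤ I D N 1 t ∧ I D N 1 t ≤ - Real.log (1 - t) := by
  have ht' : t ∈ Ioo (-1 : ℝ) 1 := ⟨by linarith [ht.1], ht.2⟩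
  constructor
  · unfold I
    refine intervalIntegral.integral_nonneg ht.1 fun s hs => ?_
    rw [h.fe_eq hs.1]
    have hs' : s ∈ Icc (0 : ℝ) 1 := ⟨hs.1, hs.2.trans ht.2.le⟩
    have := h.nonnegN s hs'
    have hD := h.D_pos (t := s) ⟨hs.1, lt_of_le_of_lt hs.2 ht.2⟩
    have := hs.1
    positivity
  · have e : ∫ s in (0 : ℝ)..t, (1 - s)⁻¹ = - Real.log (1 - t) := by
      have := intervalIntegral.integral_eq_sub_of_hasDerivAt (a := 0) (b := t)
        (f := fun s => - Real.log (1 - s)) (f' := fun s => (1 - s)⁻¹) (by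
          intro s hs
          rw [uIcc_of_le ht.1] at hs
          have h1 : (1 - s) ≠ 0 := (sub_pos.2 (lt_of_le_of_lt hs.2 ht.2)).ne'
          have h2 : HasDerivAt (fun s : ℝ => 1 - s) (-1) s := by
            simpa using (hasDerivAt_id s).const_sub 1
          refine (h2.log h1).neg.congr_deriv ?_
          field_simp) (by
          apply ContinuousOn.intervalIntegrable
          refine ContinuousOn.inv₀ (by fun_prop) ?_
          intro s hs
          rw [uIcc_of_le ht.1] at hs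
          exact (sub_pos.2 (lt_of_le_of_lt hs.2 ht.2)).ne')
      rw [this]
      simp
    rw [← e]
    unfold I
    refine intervalIntegral.integral_mono_on ht.1 (h.intI 1 ht') ?_ ?_
    · apply ContinuousOn.intervalIntegrable
      refine ContinuousOn.inv₀ (by fun_prop) ?_
      intro s hs
      rw [uIcc_of_le ht.1] at hs
      exact (sub_pos.2 (lt_of_le_of_lt hs.2 ht.2)).ne'
    · intro s hs
      have hs1 : s < 1 := lt_of_le_of_lt hs.2 ht.2
      rw [h.fe_eq hs.1]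
      rcases hs.1.eq_or_lt with h0 | h0
      · rw [← h0]
        simp
      · obtain ⟨q0, q1⟩ := h.quot ⟨h0, hs1⟩
        have hs2 := sub_pos.2 hs1
        rw [pow_one, ← one_div, le_div_iff₀ hs2]
        have h3 := mul_le_mul_of_nonneg_left q1 h0.le
        nlinarith

theorem Sol.tail (h : Sol D N S) {t : ℝ} (ht : t ∈ Ico (0 : ℝ) 1) :
    0 ≤ P1 D N - (I D N 0 t - I D N 1 t) ∧ P1 D N - (I D N 0 t - I D N 1 t) ≤ 1 - t := by
  have ht' : t ∈ Ioo (-1 : ℝ) 1 := ⟨by linarith [ht.1], ht.2⟩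
  have e1 : I D N 0 t - I D N 1 t = ∫ s in Ioc (0 : ℝ) t, (1 - s) * (N s / D s) := by
    unfold I
    rw [← intervalIntegral.integral_sub (h.intI 0 ht') (h.intI 1 ht'),
      intervalIntegral.integral_of_le ht.1]
    refine setIntegral_congr_fun measurableSet_Ioc fun s hs => ?_
    rw [h.fe_eq hs.1.le]
    ring
  have hun : Ioo (0 : ℝ) 1 = Ioc 0 t ∪ Ioo t 1 := (Ioc_union_Ioo_eq_Ioo ht.1 ht.2).symm
  have hdis : Disjoint (Ioc 0 t) (Ioo t 1) := by
    rw [Set.disjoint_left]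
    intro s hs hs'
    exact absurd hs.2 (not_le.2 hs'.1)
  have hint := h.int1
  have e2 : P1 D N = (∫ s in Ioc (0 : ℝ) t, (1 - s) * (N s / D s)) +
      ∫ s in Ioo t 1, (1 - s) * (N s / D s) := by
    unfold P1
    rw [hun] at hint ⊢
    exact setIntegral_union hdis measurableSet_Ioo (hint.mono_set subset_union_left)
      (hint.mono_set subset_union_right)
  have e3 : P1 D N - (I D N 0 t - I D N 1 t) = ∫ s in Ioo t 1, (1 - s) * (N s / D s) := by
    rw [e1, e2]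
    ring
  have hsub : Ioo t 1 ⊆ Ioo 0 1 := Ioo_subset_Ioo_left ht.1
  rw [e3]
  constructor
  · refine setIntegral_nonneg measurableSet_Ioo fun s hs => ?_
    have hs' := hsub hs
    exact mul_nonneg (sub_nonneg.2 hs'.2.le) (h.quot hs').1
  · calc ∫ s in Ioo t 1, (1 - s) * (N s / D s) ≤ ∫ _ in Ioo t 1, (1 : ℝ) := by
          refine setIntegral_mono_on (hint.mono_set hsub) ?_ measurableSet_Ioo fun s hs => ?_
          · exact integrableOn_const (by simp)
          · exact (h.quot (hsub hs)).2.trans hs.2.le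
      _ = 1 - t := by
          rw [setIntegral_const]
          simp [Measure.real, ht.2.le]

theorem Sol.lim_De1 (h : Sol D N S) : Tendsto (De1 D N S) (𝓝[<] 1) (𝓝 0) := by
  have hS := h.S_pos
  have hlog : Tendsto (fun t : ℝ => (-((1 - t) * Real.log (1 - t)) + (1 - t)) / S)
      (𝓝[<] 1) (𝓝 0) := by
    have hc : Continuous fun t : ℝ => (-((1 - t) * Real.log (1 - t)) + (1 - t)) / S := by
      have h1 : Continuous fun t : ℝ => (1 - t) * Real.log (1 - t) :=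
        Real.continuous_mul_log.comp (continuous_const.sub continuous_id)
      exact ((h1.neg).add (continuous_const.sub continuous_id)).div_const _
    have := hc.tendsto 1
    simp only [sub_self, zero_mul, neg_zero, add_zero, zero_div] at this
    exact this.mono_left nhdsWithin_le_nhds
  refine squeeze_zero_norm' ?_ hlog
  have : Ioo (0 : ℝ) 1 ∈ 𝓝[<] (1 : ℝ) := Ioo_mem_nhdsLT zero_lt_one
  filter_upwards [this] with t ht
  have ht' : t ∈ Ico (0 : ℝ) 1 := ⟨ht.1.le, ht.2⟩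
  obtain ⟨a0, a1⟩ := h.I1_bound ht'
  obtain ⟨b0, b1⟩ := h.tail ht'
  have h1 := sub_pos.2 ht.2
  have e : De1 D N S t = -((1 - t) * I D N 1 t + t * (P1 D N - (I D N 0 t - I D N 1 t))) / S := by
    unfold De1
    congr 1
    ring
  have h2 : 0 ≤ (1 - t) * I D N 1 t + t * (P1 D N - (I D N 0 t - I D N 1 t)) :=
    add_nonneg (mul_nonneg h1.le a0) (mul_nonneg ht.1.le b0)
  rw [e, neg_div, norm_neg, Real.norm_of_nonneg (div_nonneg h2 hS.le)]
  refine div_le_div_of_nonneg_right ?_ hS.le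
  have h3 : (1 - t) * I D N 1 t ≤ (1 - t) * (-Real.log (1 - t)) :=
    mul_le_mul_of_nonneg_left a1 h1.le
  have h4 : t * (P1 D N - (I D N 0 t - I D N 1 t)) ≤ 1 - t := by
    nlinarith [ht.2, ht.1]
  linarith

end

end Pool.Agent.Work.MP_db815f_an
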