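import Mathlib
import Pool.Agent.Work.MP_db815f_an.Defs
import Pool.Agent.Work.MP_db815f_an.Ode

set_option autoImplicit false

open Filter Topology Set Metric MeasureTheory

namespace Pool.Agent.Work.MP_db815f_an

theorem contDiffOn_step {s : Set ℝ} (hs : UniqueDiffOn ℝ s) {g g' : ℝ → ℝ} {n : ℕ}
    (h : ∀ x ∈ s, HasDerivWithinAt g (g' x) s x) (h' : ContDiffOn ℝ n g' s) :
    ContDiffOn ℝ (n + 1 : ℕ) g s := by
  have h2 : ContDiffOn ℝ n (derivWithin g s) s :=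
    h'.congr fun x hx => (h x hx).derivWithin (hs x hx)
  push_cast
  rw [contDiffOn_succ_iff_derivWithin hs]
  refine ⟨fun x hx => (h x hx).differentiableWithinAt, by simp, h2⟩

theorem chain4 {s : Set ℝ} (hs : UniqueDiffOn ℝ s) {g g1 g2 g3 g4 : ℝ → ℝ}
    (h0 : ∀ x ∈ s, HasDerivWithinAt g (g1 x) s x)
    (h1 : ∀ x ∈ s, HasDerivWithinAt g1 (g2 x) s x)
    (h2 : ∀ x ∈ s, HasDerivWithinAt g2 (g3 x) s x)
    (h3 : ∀ x ∈ s, HasDerivWithinAt g3 (g4 x) s x) (h4 : ContinuousOn g4 s) :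
    ContDiffOn ℝ 4 g s ∧ (∀ x ∈ s, derivWithin g s x = g1 x) ∧
      (∀ x ∈ s, iteratedDerivWithin 3 g s x = g3 x) := by
  have c4 : ContDiffOn ℝ (0 : ℕ) g4 s := by
    rw [Nat.cast_zero, contDiffOn_zero]
    exact h4
  have c3 := contDiffOn_step hs h3 c4
  have c2 := contDiffOn_step hs h2 c3
  have c1 := contDiffOn_step hs h1 c2
  have c0 := contDiffOn_step hs h0 c1
  have d1 : ∀ x ∈ s, derivWithin g s x = g1 x := fun x hx => (h0 x hx).derivWithin (hs x hx)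
  have d2 : ∀ x ∈ s, iteratedDerivWithin 2 g s x = g2 x := by
    intro x hx
    rw [iteratedDerivWithin_succ]
    have : EqOn (iteratedDerivWithin 1 g s) g1 s := by
      intro y hy
      rw [iteratedDerivWithin_one]
      exact d1 y hy
    rw [derivWithin_congr this (this hx)]
    exact (h1 x hx).derivWithin (hs x hx)
  refine ⟨c0, d1, fun x hx => ?_⟩
  rw [iteratedDerivWithin_succ]
  have : EqOn (iteratedDerivWithin 2 g s) g2 s := d2
  rw [derivWithin_congr this (this hx)]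
  exact (h2 x hx).derivWithin (hs x hx)

theorem exists_profile : ∃ (ξ₀ : ℝ) (g : ℝ → ℝ), AdmissibleProfile ξ₀ g ∧
    (∀ ξ, g (-ξ) = g ξ) ∧ ContDiffOn ℝ 4 g (Ioo (-ξ₀) ξ₀) := by
  obtain ⟨D, N, S, h⟩ := exists_sol
  have hS := h.S_pos
  have hc := h.c1_pos
  set c := c1 D N S with hcdef
  obtain ⟨L, hL, hL4⟩ : ∃ L : ℝ, 0 < L ∧ L ^ 4 = 4 / (c * S) := by
    refine ⟨(4 / (c * S)) ^ ((1 : ℝ) / 4), by positivity, ?_⟩
    rw [← Real.rpow_natCast, ← Real.rpow_mul (by positivity)]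
    norm_num
  set g : ℝ → ℝ := fun ξ => 2 / c * De D N S (ξ / L) with hg
  set g1 : ℝ → ℝ := fun ξ => 2 / c * (De1 D N S (ξ / L) / L) with hg1
  set g2 : ℝ → ℝ := fun ξ => 2 / c * (De2 D N S (ξ / L) / L ^ 2) with hg2
  set g3 : ℝ → ℝ := fun ξ => 2 / c * (fe D N (ξ / L) / (S * L ^ 3)) with hg3
  set F4 : ℝ → ℝ := fun t => (Ne1 D N S t * De D N S t - Ne D N S t * De1 D N S t) /
      (De D N S t) ^ 2 with hF4
  set g4 : ℝ → ℝ := fun ξ => 2 / c * (F4 (ξ / L) / (S * L ^ 4)) with hg4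
  have hmem : ∀ ξ ∈ Ioo (-L) L, ξ / L ∈ Ioo (-1 : ℝ) 1 := by
    intro ξ hξ
    constructor
    · rw [lt_div_iff₀ hL]
      linarith [hξ.1]
    · rw [div_lt_one hL]
      exact hξ.2
  have hdiv : ∀ ξ : ℝ, HasDerivAt (fun x => x / L) (1 / L) ξ := fun ξ =>
    (hasDerivAt_id ξ).div_const L
  have d0 : ∀ ξ ∈ Ioo (-L) L, HasDerivAt g (g1 ξ) ξ := by
    intro ξ hξ
    have := ((h.deriv_De (hmem ξ hξ)).comp ξ (hdiv ξ)).const_mul (2 / c)
    refine this.congr_deriv ?_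
    simp only [hg1]
    ring
  have d1 : ∀ ξ ∈ Ioo (-L) L, HasDerivAt g1 (g2 ξ) ξ := by
    intro ξ hξ
    have := (((h.deriv_De1 (hmem ξ hξ)).comp ξ (hdiv ξ)).div_const L).const_mul (2 / c)
    refine this.congr_deriv ?_
    simp only [hg2]
    field_simp
  have d2 : ∀ ξ ∈ Ioo (-L) L, HasDerivAt g2 (g3 ξ) ξ := by
    intro ξ hξ
    have := (((h.deriv_De2 (hmem ξ hξ)).comp ξ (hdiv ξ)).div_const (L ^ 2)).const_mul (2 / c)
    refine this.congr_deriv ?_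
    simp only [hg3]
    field_simp
  have d3 : ∀ ξ ∈ Ioo (-L) L, HasDerivAt g3 (g4 ξ) ξ := by
    intro ξ hξ
    have := (((h.deriv_fe (hmem ξ hξ)).comp ξ (hdiv ξ)).div_const (S * L ^ 3)).const_mul (2 / c)
    refine this.congr_deriv ?_
    simp only [hg4, hF4]
    field_simp
  have c4 : ContinuousOn g4 (Ioo (-L) L) := by
    refine ContinuousOn.mul continuousOn_const (ContinuousOn.div_const ?_ _)
    exact h.cont_dfe.comp (f := fun ξ : ℝ => ξ / L) (by fun_prop) hmem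
  have hsub : Ico 0 L ⊆ Ioo (-L) L := fun x hx => ⟨by linarith [hx.1], hx.2⟩
  have huI : UniqueDiffOn ℝ (Ico (0 : ℝ) L) := uniqueDiffOn_Ico 0 L
  have huO : UniqueDiffOn ℝ (Ioo (-L) L) := uniqueDiffOn_Ioo _ _
  obtain ⟨sm, e1, e3⟩ := chain4 huI (fun x hx => (d0 x (hsub hx)).hasDerivWithinAt)
    (fun x hx => (d1 x (hsub hx)).hasDerivWithinAt)
    (fun x hx => (d2 x (hsub hx)).hasDerivWithinAt)
    (fun x hx => (d3 x (hsub hx)).hasDerivWithinAt) (c4.mono hsub)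
  obtain ⟨smO, -, -⟩ := chain4 huO (fun x hx => (d0 x hx).hasDerivWithinAt)
    (fun x hx => (d1 x hx).hasDerivWithinAt)
    (fun x hx => (d2 x hx).hasDerivWithinAt)
    (fun x hx => (d3 x hx).hasDerivWithinAt) c4
  -- the flux
  have flux : ∀ ξ ∈ Ioo (-L) L, g ξ * g3 ξ = 4 / (c ^ 2 * S * L ^ 3) * Ne D N S (ξ / L) := by
    intro ξ hξ
    have hD := (h.De_pos (hmem ξ hξ)).ne'
    simp only [hg, hg3]
    rw [h.fe_quot (hmem ξ hξ)]
    field_simp
    ring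
  have dflux : ∀ ξ ∈ Ioo (-L) L, HasDerivAt (fun x => g x * g3 x)
      (g ξ - 1 / 2 * ξ * g1 ξ - 1) ξ := by
    intro ξ hξ
    have h1 : HasDerivAt (fun x => 4 / (c ^ 2 * S * L ^ 3) * Ne D N S (x / L))
        (4 / (c ^ 2 * S * L ^ 3) * (Ne1 D N S (ξ / L) * (1 / L))) ξ :=
      ((h.deriv_Ne (hmem ξ hξ)).comp ξ (hdiv ξ)).const_mul _
    have h2 : HasDerivAt (fun x => g x * g3 x)
        (4 / (c ^ 2 * S * L ^ 3) * (Ne1 D N S (ξ / L) * (1 / L))) ξ := by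
      refine h1.congr_of_eventuallyEq ?_
      filter_upwards [isOpen_Ioo.mem_nhds hξ] with x hx
      exact flux x hx
    refine h2.congr_deriv ?_
    have e : 4 / (c ^ 2 * S * L ^ 3) * (Ne1 D N S (ξ / L) * (1 / L)) =
        4 / (c * S) / L ^ 4 * (Ne1 D N S (ξ / L) / c) := by
      field_simp
    rw [e, ← hL4, div_self (by positivity), one_mul, h.identity]
    simp only [hg, hg1]
    rw [← hcdef]
    field_simp
  have hlim : Tendsto (fun ξ : ℝ => ξ / L) (𝓝[<] L) (𝓝[<] 1) := by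
    rw [tendsto_nhdsWithin_iff]
    constructor
    · have : Tendsto (fun ξ : ℝ => ξ / L) (𝓝 L) (𝓝 (L / L)) := (continuous_id.div_const L).tendsto L
      rw [div_self hL.ne'] at this
      exact this.mono_left nhdsWithin_le_nhds
    · filter_upwards [self_mem_nhdsWithin] with x hx
      exact (div_lt_one hL).2 hx
  have hev : Ioo (0 : ℝ) L ∈ 𝓝[<] L := Ioo_mem_nhdsLT hL
  have h0 : (0 : ℝ) ∈ Ico (0 : ℝ) L := ⟨le_rfl, hL⟩
  refine ⟨L, g, ⟨hL, sm, ?_, ?_, ?_, ?_, ?_, ?_, ?_⟩, ?_, smO⟩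
  · intro ξ hξ
    have := h.De_pos (hmem ξ (hsub hξ))
    simp only [hg]
    positivity
  · intro ξ hξ
    have e4 : EqOn (fun x => g x * iteratedDerivWithin 3 g (Ico 0 L) x)
        (fun x => g x * g3 x) (Ico 0 L) := by
      intro x hx
      simp only
      rw [e3 x hx]
    rw [derivWithin_congr e4 (e4 hξ),
      ((dflux ξ (hsub hξ)).hasDerivWithinAt).derivWithin (huI ξ hξ), e1 ξ hξ]
    ring
  · rw [e1 0 h0]
    simp [hg1, De1, I]
  · rw [e3 0 h0]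
    simp [hg3, fe, h.N0]
  · have := (h.lim_De.comp hlim).const_mul (2 / c)
    simpa using this
  · have h1 := ((h.lim_De1.comp hlim).div_const L).const_mul (2 / c)
    rw [zero_div, mul_zero] at h1
    refine h1.congr' ?_
    filter_upwards [hev] with x hx
    rw [e1 x ⟨hx.1.le, hx.2⟩]
    rfl
  · have h1 := (h.lim_Ne.comp hlim).const_mul (4 / (c ^ 2 * S * L ^ 3))
    rw [mul_zero] at h1
    refine h1.congr' ?_
    filter_upwards [hev] with x hx
    rw [e3 x ⟨hx.1.le, hx.2⟩, flux x (hsub ⟨hx.1.le, hx.2⟩)]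
    rfl
  · intro ξ
    simp only [hg]
    rw [neg_div, De_even]

end Pool.Agent.Work.MP_db815f_an
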